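import Pool.Agent.R388.TP.Kummer
set_option autoImplicit false

/-!
# Descent along algebraic extensions of the base field
-/

open MvPolynomial Pool.Agent.Y129.TA Pool.Agent.Y129.TB

set_option linter.unusedSectionVars false

namespace Pool.Agent.R388.TP

section emb

attribute [local instance] MvPolynomial.algebraMvPolynomial

theorem exists_emb {E E' F ι : Type} [Field E] [Field E'] [Field F] [IsAlgClosed F] [Algebra E E']
    [Algebra E F] [Algebra.IsAlgebraic E E'] {I : Ideal (MvPolynomial ι E')} {y : ι → F}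
    (hy : ∀ P : MvPolynomial ι E, MvPolynomial.map (algebraMap E E') P ∈ I → aeval y P = 0) :
    ∃ σ : E' →ₐ[E] F, ∀ g ∈ I, eval₂ (σ : E' →+* F) y g = 0 := by
  have hint : Algebra.IsIntegral E E' := inferInstance
  have h1 : Algebra.IsIntegral (MvPolynomial ι E) (MvPolynomial ι E') := inferInstance
  have h2 : Algebra.IsIntegral (MvPolynomial ι E) (MvPolynomial ι E' ⧸ I) :=
    Algebra.IsIntegral.of_surjective (Ideal.Quotient.mkₐ (MvPolynomial ι E) I)
      Ideal.Quotient.mk_surjective
  have halg : ∀ P : MvPolynomial ι E, algebraMap (MvPolynomial ι E) (MvPolynomial ι E' ⧸ I) P =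
      Ideal.Quotient.mk I (MvPolynomial.map (algebraMap E E') P) := fun P => rfl
  obtain ⟨ψ, hψ⟩ := exists_hom (R := MvPolynomial ι E) (S := MvPolynomial ι E' ⧸ I)
    (aeval y : MvPolynomial ι E →ₐ[E] F).toRingHom (by
      intro P hP
      rw [RingHom.mem_ker, halg] at hP
      exact hy P (Ideal.Quotient.eq_zero_iff_mem.1 hP))
  have hψ' : ∀ P : MvPolynomial ι E,
      ψ (Ideal.Quotient.mk I (MvPolynomial.map (algebraMap E E') P)) = aeval y P := fun P =>
    congrArg (fun χ : MvPolynomial ι E →+* F => χ P) hψ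
  let σ : E' →ₐ[E] F :=
    { (ψ.comp ((Ideal.Quotient.mk I).comp C)) with
      commutes' := fun a => by
        have h3 := hψ' (C a)
        rw [map_C, aeval_C] at h3
        exact h3 }
  refine ⟨σ, fun g hg => ?_⟩
  have h3 : (eval₂Hom (σ : E' →+* F) y) = ψ.comp (Ideal.Quotient.mk I) := by
    refine MvPolynomial.ringHom_ext (fun c => ?_) fun i => ?_
    · rw [coe_eval₂Hom, eval₂_C]
      rfl
    · rw [coe_eval₂Hom, eval₂_X]
      have h4 := hψ' (X i)
      rw [map_X, aeval_X] at h4
      exact h4.symm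
  have h4 : eval₂ (σ : E' →+* F) y g = ψ (Ideal.Quotient.mk I g) :=
    congrArg (fun χ : MvPolynomial ι E' →+* F => χ g) h3
  rw [h4, Ideal.Quotient.eq_zero_iff_mem.2 hg, map_zero]

end emb

/-- Every `E`-homomorphism from `E'` to `F` extends to an isometric automorphism of `F` which
corresponds under `♯` to an automorphism of `C` over `K`. -/
def GaloisLift {p : ℕ} {C F : Type} [Field C] [Field F] (T : TiltPair p C F) (K E E' : Type)
    [Field K] [Field E] [Field E'] [Algebra K C] [Algebra E F] [Algebra E' F] [Algebra E E'] :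
    Prop :=
  ∀ σ : E' →ₐ[E] F, ∃ (τF : F ≃+* F) (τC : C ≃+* C), (∀ a : E', τF (algebraMap E' F a) = σ a) ∧
    (∀ a : K, τC (algebraMap K C a) = algebraMap K C a) ∧ (∀ x, T.absF (τF x) = T.absF x) ∧
    ∀ x, T.sharp (τF x) = τC (T.sharp x)

variable {p : ℕ} [hp : Fact p.Prime] {C F K E K' E' : Type} [Field C] [Field F] [CharP F p]
  [Field K] [Field E] [Field K'] [Field E'] [Algebra K C] [Algebra E F] [Algebra K' C]
  [Algebra E' F] [Algebra K K'] [Algebra E E'] [IsScalarTower K K' C] [IsScalarTower E E' F]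
  {ι : Type} [Fintype ι]

theorem descent [IsAlgClosed C] [IsAlgClosed F] [Nonempty ι] [Algebra.IsAlgebraic E E']
    (T : Tilting p C F) (B : BaseField T K E) (hG : GaloisLift T.toTiltPair K E E')
    {Z : Set (ι → C)} {d : ℕ} (hX : IsConeOver K Z) (hXd : DimLEOver K Z d)
    (ha : Approximable T.toTiltPair K' E' Z d) :
    Approximable T.toTiltPair K E Z d := by
  classical
  have : Infinite C := IsAlgClosed.instInfinite
  have : Infinite F := IsAlgClosed.instInfinite
  obtain ⟨s, g, hg, hXg⟩ := exists_gens hX (nonempty_of_approximable T.toTiltPair ha)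
  obtain ⟨q, hq, hq0⟩ := hXd
  -- the forms `q j`
  let G : Fin s ⊕ Fin (d + 1) → MvPolynomial ι C :=
    Sum.elim (fun l => MvPolynomial.map (algebraMap K C) (g l))
      (fun j => MvPolynomial.map (algebraMap K C) (q j))
  have s1 : ∀ t : ι, ∃ δ : ℝ, 0 < δ ∧ ∀ v : ι → C, (∀ i, T.absK (v i) ≤ 1) →
      (∀ k, T.absK (eval v (G k)) ≤ δ) → T.absK (eval v (X t)) ≤ 1 / 2 := by
    intro t
    refine small T.ultraK _ _ (fun v hv => ?_) (by norm_num)
    have h1 : v ∈ Z := by
      rw [hXg]
      intro l
      rw [← eval_map_alg]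
      exact hv (Sum.inl l)
    have h2 := hq0 v h1 fun j => by
      rw [← eval_map_alg]
      exact hv (Sum.inr j)
    rw [eval_X, h2]
    rfl
  choose δ₁ hδ₁ hs1 using s1
  obtain ⟨δ, hδ, hδ'⟩ := exists_pos_le δ₁ hδ₁
  have a2 : ∀ j : Fin (d + 1), ∃ D, 0 < D ∧ ∃ g : MvPolynomial ι E, g.IsHomogeneous D ∧
      ∀ t : ι → F, (∀ i, T.absF (t i) ≤ 1) → aeval t g = 0 →
        T.absK (aeval (fun i => T.sharp (t i)) (q j)) ≤ δ := by
    intro j
    obtain ⟨D, hD, hD'⟩ := hq j
    exact Pool.Agent.Y129.TB.approx T B hD hD' hδ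
  choose Dg hDg u hu hua using a2
  choose D hD hgD using hg
  intro r P DP hPD hPX ε hε
  let ε' := min ε δ
  have hε' : 0 < ε' := lt_min hε hδ
  let P' : Fin (r + s) → MvPolynomial ι K' :=
    Fin.append (fun k => MvPolynomial.map (algebraMap K K') (P k))
      (fun l => MvPolynomial.map (algebraMap K K') (g l))
  let D' : Fin (r + s) → ℕ := Fin.append DP D
  obtain ⟨Y', hY', hY'd, -, hY't⟩ := ha (r + s) P' D' (fun k => by
      refine Fin.addCases (fun i => ?_) (fun j => ?_) k
      · simp only [P', D', Fin.append_left]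
        exact (hPD i).map _
      · simp only [P', D', Fin.append_right]
        exact (hgD j).map _) (fun k x hx => by
      refine Fin.addCases (fun i => ?_) (fun j => ?_) k
      · simp only [P', Fin.append_left, aeval_map_algebraMap]
        exact hPX i x hx
      · simp only [P', Fin.append_right, aeval_map_algebraMap]
        rw [hXg] at hx
        exact hx j) ε' hε'
  obtain ⟨⟨I', hI'⟩, hcone'⟩ := hY'
  let J : Ideal (MvPolynomial ι E) := I'.comap (MvPolynomial.map (algebraMap E E'))
  -- the points of `Y` are the conjugates of points of `Y'`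
  have key : ∀ y ∈ zeroLocus F J, ∃ (τF : F ≃+* F) (τC : C ≃+* C) (y' : ι → F), y' ∈ Y' ∧
      (∀ i, y i = τF (y' i)) ∧ (∀ a : E, τF (algebraMap E F a) = algebraMap E F a) ∧
      (∀ a : K, τC (algebraMap K C a) = algebraMap K C a) ∧
      (∀ x, T.absF (τF x) = T.absF x) ∧ ∀ x, T.sharp (τF x) = τC (T.sharp x) := by
    intro y hy
    obtain ⟨σ, hσ⟩ := exists_emb (E := E) (E' := E') (F := F) (I := I') (y := y)
      fun P hP => (mem_zeroLocus_iff.1 hy) P hP
    obtain ⟨τF, τC, h1, h2, h3, h4⟩ := hG σ
    have h5 : ∀ a : E, τF (algebraMap E F a) = algebraMap E F a := by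
      intro a
      rw [IsScalarTower.algebraMap_apply E E' F a, h1, σ.commutes,
        ← IsScalarTower.algebraMap_apply E E' F a]
    refine ⟨τF, τC, fun i => τF.symm (y i), ?_, fun i => (τF.apply_symm_apply _).symm, h5, h2, h3,
      h4⟩
    rw [hI', mem_zeroLocus_iff]
    intro f hf
    have h6 := hσ f hf
    apply τF.injective
    rw [map_zero, ← h6]
    have h7 : (τF : F →+* F).comp (aeval (fun i => τF.symm (y i)) :
        MvPolynomial ι E' →ₐ[E'] F).toRingHom = eval₂Hom (σ : E' →+* F) y := by
      refine MvPolynomial.ringHom_ext (fun c => ?_) fun i => ?_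
      · rw [coe_eval₂Hom, eval₂_C]
        change τF (aeval (fun i => τF.symm (y i)) (MvPolynomial.C c)) = σ c
        rw [aeval_C, h1]
      · rw [coe_eval₂Hom, eval₂_X]
        change τF (aeval (fun i => τF.symm (y i)) (X i)) = y i
        rw [aeval_X, τF.apply_symm_apply]
    exact congrArg (fun χ : MvPolynomial ι E' →+* F => χ f) h7
  have hmem : ∀ y' ∈ Y', ∀ τF : F ≃+* F, (∀ a : E, τF (algebraMap E F a) = algebraMap E F a) →
      (fun i => τF (y' i)) ∈ zeroLocus F J := by
    intro y' hy' τF h1
    rw [mem_zeroLocus_iff]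
    intro f hf
    have h2 : aeval y' (MvPolynomial.map (algebraMap E E') f) = 0 := by
      rw [hI'] at hy'
      exact (mem_zeroLocus_iff.1 hy') _ hf
    rw [aeval_map_algebraMap] at h2
    have h3 : (aeval (fun i => τF (y' i)) : MvPolynomial ι E →ₐ[E] F).toRingHom =
        (τF : F →+* F).comp (aeval y' : MvPolynomial ι E →ₐ[E] F).toRingHom := by
      refine MvPolynomial.ringHom_ext (fun c => ?_) fun i => ?_
      · change aeval (fun i => τF (y' i)) (MvPolynomial.C c) = τF (aeval y' (MvPolynomial.C c))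
        rw [aeval_C, aeval_C, h1]
      · change aeval (fun i => τF (y' i)) (X i) = τF (aeval y' (X i))
        rw [aeval_X, aeval_X]
    have h4 : aeval (fun i => τF (y' i)) f = τF (aeval y' f) :=
      congrArg (fun χ : MvPolynomial ι E →+* F => χ f) h3
    rw [h4, h2, map_zero]
  have hcone : ∀ a : F, ∀ y ∈ zeroLocus F J, a • y ∈ zeroLocus F J := by
    intro a y hy
    obtain ⟨τF, τC, y', hy', h1, h2, -⟩ := key y hy
    have h3 := hmem _ (hcone' (τF.symm a) y' hy') τF h2
    have h4 : (fun i => τF ((τF.symm a • y') i)) = a • y := by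
      funext i
      rw [Pi.smul_apply, Pi.smul_apply, smul_eq_mul, smul_eq_mul, map_mul, τF.apply_symm_apply,
        ← h1]
    rwa [h4] at h3
  -- the tubes
  have htube : ∀ y ∈ zeroLocus F J, ∀ k, InTube T.toTiltPair (P' k) (D' k) ε' y := by
    intro y hy k Bd hBd
    obtain ⟨τF, τC, y', hy', h1, h2, h3, h4, h5⟩ := key y hy
    have habs : ∀ x, T.absK (τC x) = T.absK x := by
      intro x
      obtain ⟨z, rfl⟩ := T.surj x
      rw [← h5, T.abs_sharp, T.abs_sharp, h4]
    have h6 := hY't y' hy' k Bd (fun i => by rw [← h4, ← h1]; exact hBd i)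
    have h7 : ∀ Q : MvPolynomial ι K, aeval (fun i => T.sharp (y i)) Q =
        τC (aeval (fun i => T.sharp (y' i)) Q) := by
      intro Q
      have h8 : (aeval (fun i => T.sharp (y i)) : MvPolynomial ι K →ₐ[K] C).toRingHom =
          (τC : C →+* C).comp
            (aeval (fun i => T.sharp (y' i)) : MvPolynomial ι K →ₐ[K] C).toRingHom := by
        refine MvPolynomial.ringHom_ext (fun c => ?_) fun i => ?_
        · change aeval (fun i => T.sharp (y i)) (MvPolynomial.C c) = τC (aeval (fun i => T.sharp (y' i)) (MvPolynomial.C c))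
          rw [aeval_C, aeval_C, h3]
        · change aeval (fun i => T.sharp (y i)) (X i) = τC (aeval (fun i => T.sharp (y' i)) (X i))
          rw [aeval_X, aeval_X, h1, h5]
      exact congrArg (fun χ : MvPolynomial ι K →+* C => χ Q) h8
    have h9 : ∃ Q : MvPolynomial ι K, P' k = MvPolynomial.map (algebraMap K K') Q := by
      refine Fin.addCases (fun i => ?_) (fun j => ?_) k
      · exact ⟨P i, by simp only [P', Fin.append_left]⟩
      · exact ⟨g j, by simp only [P', Fin.append_right]⟩
    obtain ⟨Q, hQ⟩ := h9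
    rw [hQ, aeval_map_algebraMap] at h6 ⊢
    rw [h7, habs]
    exact h6
  refine ⟨zeroLocus F J, ⟨⟨J, rfl⟩, hcone⟩, ?_, ?_, ?_⟩
  · intro w hw
    obtain ⟨y', hy', h1, h2⟩ := hY'd w hw
    refine ⟨y', ?_, h1, h2⟩
    exact hmem y' hy' (RingEquiv.refl F) fun a => rfl
  · refine ⟨fun j => MvPolynomial.map (algebraMap E F) (u j),
      fun j => form_map ⟨Dg j, hDg j, hu j⟩, ?_⟩
    intro y hy hy2
    by_contra hy0
    obtain ⟨a, ha', h1, t, ht⟩ := exists_normal T.toTiltPair hy0
    have h3 := hs1 t (fun t => T.sharp (a * y t)) (fun i => by rw [T.abs_sharp]; exact h1 i) (by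
      rintro (l | j)
      · have h4 := htube (a • y) (hcone a y hy) (Fin.natAdd r l) 1 h1
        simp only [P', D', Fin.append_right, one_pow, mul_one, aeval_map_algebraMap] at h4
        have h5 : eval (fun t => T.sharp (a * y t)) (G (Sum.inl l)) =
            aeval (fun t => T.sharp (a * y t)) (g l) := eval_map_alg _ _
        rw [h5]
        exact h4.trans ((min_le_right _ _).trans (hδ' t))
      · have h5 : eval (fun t => T.sharp (a * y t)) (G (Sum.inr j)) =
            aeval (fun t => T.sharp (a * y t)) (q j) := eval_map_alg _ _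
        rw [h5]
        refine (hua j (fun i => a * y i) h1 ?_).trans (hδ' t)
        have h6 : aeval y (u j) = 0 := by
          rw [← eval_map_alg]
          exact hy2 j
        rw [aeval_smul_fin (hu j), h6, mul_zero])
    rw [eval_X, T.abs_sharp, ht] at h3
    norm_num at h3
  · intro y hy k Bd hBd
    have h1 := htube y hy (Fin.castAdd s k) Bd hBd
    simp only [P', D', Fin.append_left, aeval_map_algebraMap] at h1
    refine h1.trans ?_
    have hB0 : 0 ≤ Bd := (T.absF.nonneg _).trans (hBd (Classical.arbitrary _))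
    exact mul_le_mul_of_nonneg_right (min_le_left _ _) (pow_nonneg hB0 _)

end Pool.Agent.R388.TP
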