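import Pool.Agent.R388.TP.Descent
set_option autoImplicit false

/-!
# Descent of Q1: the main theorem
-/

open MvPolynomial Pool.Agent.Y129.TA Pool.Agent.Y129.TB

set_option linter.unusedSectionVars false

namespace Pool.Agent.R388.TP

variable {p : ℕ} [hp : Fact p.Prime] {C F K E K' E' : Type} [Field C] [Field F] [CharP F p]
  [Field K] [Field E] [Field K'] [Field E'] [Algebra K C] [Algebra E F] [Algebra K' C]
  [Algebra E' F] [Algebra K K'] [Algebra E E'] [IsScalarTower K K' C] [IsScalarTower E E' F]

theorem descent_main [IsAlgClosed C] [IsAlgClosed F] [Algebra.IsAlgebraic E E']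
    (T : Tilting p C F) (B : BaseField T K E) (B' : BaseField T K' E')
    (hG : GaloisLift T.toTiltPair K E E') {n d : ℕ} {X : Set (Fin (n + 1) → C)}
    (hX : IsConeOver K X) (hXd : DimLEOver K X d)
    (hX' : IsToricUnion K' X d ∨ Approximable T.toTiltPair K' E' X d) :
    DimGE X d ∧ Approximable T.toTiltPair K E X d := by
  have : Infinite C := IsAlgClosed.instInfinite
  have h1 : Approximable T.toTiltPair K' E' X d := by
    rcases hX' with h | h
    · exact (q1_of_toricUnion T B' (Or.inl h)).2
    · exact h
  have h2 := descent T B hG hX hXd h1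
  obtain ⟨s, g, hg, hXg⟩ := exists_gens hX (nonempty_of_approximable T.toTiltPair h2)
  refine ⟨?_, h2⟩
  have h3 := dimGE_of_small T (small_of_approximable T.toTiltPair g hg hXg h2)
  rwa [← hXg] at h3

end Pool.Agent.R388.TP
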