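import Pool.Agent.Y129.TA.Main
set_option autoImplicit false

/-!
# The dimension of the join with a linear space
-/

open MvPolynomial Pool.Agent.Y129.TA

namespace Pool.Agent.R388.TP

section forms

variable {F : Type} [Field F] [IsAlgClosed F] {α : Type} [Finite α]

/-- A linear form that does not vanish at the given nonzero points. -/
theorem exists_linear {W : Set (α → F)} (hW : W.Finite) (h0 : (0 : α → F) ∉ W) :
    ∃ ℓ : MvPolynomial α F, ℓ.IsHomogeneous 1 ∧ ∀ w ∈ W, eval w ℓ ≠ 0 := by
  classical
  have : Fintype α := Fintype.ofFinite α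
  let S := hW.toFinset
  let P : MvPolynomial α F := ∏ w ∈ S, ∑ a, C (w a) * X a
  have hP : P ≠ 0 := by
    refine Finset.prod_ne_zero_iff.2 fun w hw hw0 => ?_
    have hw1 : w ∈ W := hW.mem_toFinset.1 hw
    have hw2 : w ≠ 0 := fun h => h0 (h ▸ hw1)
    obtain ⟨b, hb⟩ := Function.ne_iff.1 hw2
    apply hb
    have h1 := congrArg (eval (Pi.single b (1 : F))) hw0
    simp only [map_sum, map_mul, eval_C, eval_X, map_zero] at h1
    rw [Finset.sum_eq_single b (fun a _ hab => by rw [Pi.single_eq_of_ne hab, mul_zero])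
      (fun h => absurd (Finset.mem_univ b) h), Pi.single_eq_same, mul_one] at h1
    exact h1
  obtain ⟨c, hc⟩ : ∃ c : α → F, eval c P ≠ 0 := by
    by_contra hno
    push Not at hno
    exact hP (MvPolynomial.funext fun x => by rw [hno x, map_zero])
  refine ⟨∑ a, C (c a) * X a, ?_, fun w hw hw0 => ?_⟩
  · refine IsHomogeneous.sum _ _ _ fun a _ => ?_
    have h1 := (isHomogeneous_C α (c a)).mul (isHomogeneous_X F a)
    simpa using h1
  · rw [map_prod] at hc
    have h1 := Finset.prod_ne_zero_iff.1 hc w (hW.mem_toFinset.2 hw)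
    apply h1
    simp only [map_sum, map_mul, eval_C, eval_X] at hw0 ⊢
    rw [← hw0]
    exact Finset.sum_congr rfl fun a _ => mul_comm _ _

/-- A chain of prime ideals of length `n` which contain `J`, the last of which is the ideal of
the origin. -/
def HasChain (J : Ideal (MvPolynomial α F)) (n : ℕ) : Prop :=
  ∃ s : LTSeries (PrimeSpectrum (MvPolynomial α F)), s.length = n ∧ J ≤ s.head.asIdeal ∧
    s.last.asIdeal = vanishingIdeal F {(0 : α → F)}

theorem le_of_zeroLocus {P : Ideal (MvPolynomial α F)} [P.IsPrime]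
    (h : ∀ w ∈ zeroLocus F P, w = 0) : vanishingIdeal F {(0 : α → F)} ≤ P := by
  rw [← MvPolynomial.IsPrime.vanishingIdeal_zeroLocus (K := F) P]
  refine vanishingIdeal_anti_mono fun w hw => ?_
  rw [Set.mem_singleton_iff]
  exact h w hw

/-- The line through the point `y`. -/
noncomputable def lineHom (y : α → F) : MvPolynomial α F →ₐ[F] Polynomial F :=
  aeval fun a => Polynomial.C (y a) * Polynomial.X

theorem eval_lineHom (y : α → F) (t : F) (f : MvPolynomial α F) :
    (lineHom y f).eval t = eval (t • y) f := by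
  have h : ((Polynomial.evalRingHom t).comp (lineHom y : MvPolynomial α F →+* Polynomial F)) =
      eval (t • y) := by
    apply MvPolynomial.ringHom_ext
    · intro c
      have h1 : lineHom y (C c) = Polynomial.C c := by
        unfold lineHom
        rw [aeval_C]
        rfl
      rw [RingHom.comp_apply, eval_C]
      change (lineHom y (C c)).eval t = c
      rw [h1, Polynomial.eval_C]
    · intro a
      have h1 : lineHom y (X a) = Polynomial.C (y a) * Polynomial.X := by
        unfold lineHom
        rw [aeval_X]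
      rw [RingHom.comp_apply, eval_X]
      change (lineHom y (X a)).eval t = _
      rw [h1, Polynomial.eval_mul, Polynomial.eval_C, Polynomial.eval_X, mul_comm]
      rfl
  exact congrArg (fun g => g f) h

theorem hasChain_one {J : Ideal (MvPolynomial α F)}
    (hJ : ∀ a : F, ∀ y ∈ zeroLocus F J, a • y ∈ zeroLocus F J) {y : α → F}
    (hy : y ∈ zeroLocus F J) (hy0 : y ≠ 0) : HasChain J 1 := by
  let P : PrimeSpectrum (MvPolynomial α F) :=
    ⟨RingHom.ker (lineHom y : MvPolynomial α F →+* Polynomial F), RingHom.ker_isPrime _⟩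
  have hmax : (vanishingIdeal F {(0 : α → F)} : Ideal (MvPolynomial α F)).IsMaximal :=
    isMaximal_iff_eq_vanishingIdeal_singleton.2 ⟨0, rfl⟩
  let M : PrimeSpectrum (MvPolynomial α F) :=
    ⟨vanishingIdeal F {(0 : α → F)}, hmax.isPrime⟩
  have hlt : P < M := by
    rw [← PrimeSpectrum.asIdeal_lt_asIdeal]
    refine lt_of_le_of_ne (fun f hf => ?_) fun h => ?_
    · change f ∈ vanishingIdeal F {(0 : α → F)}
      rw [mem_vanishingIdeal_singleton_iff, aeval_eq_eval]
      have h1 : lineHom y f = 0 := hf
      have h2 := eval_lineHom y 0 f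
      rw [h1, Polynomial.eval_zero, zero_smul] at h2
      exact h2.symm
    · obtain ⟨b, hb⟩ := Function.ne_iff.1 hy0
      have h1 : (X b : MvPolynomial α F) ∈ M.asIdeal := by
        change (X b : MvPolynomial α F) ∈ vanishingIdeal F {(0 : α → F)}
        rw [mem_vanishingIdeal_singleton_iff, aeval_X]
        rfl
      rw [← h] at h1
      have h2 : lineHom y (X b) = 0 := h1
      simp only [lineHom, aeval_X, mul_eq_zero, Polynomial.C_eq_zero, Polynomial.X_ne_zero,
        or_false] at h2
      exact hb h2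
  refine ⟨(RelSeries.singleton _ M).cons P (by simpa using hlt), by simp, ?_, ?_⟩
  · rw [RelSeries.head_cons]
    intro f hf
    change lineHom y f = 0
    apply Polynomial.funext
    intro t
    rw [eval_lineHom, Polynomial.eval_zero]
    have h1 := (mem_zeroLocus_iff.1 (hJ t y hy)) f hf
    rwa [aeval_eq_eval] at h1
  · rw [RelSeries.last_cons]
    rfl

theorem mem_sup_span {J : Ideal (MvPolynomial α F)} {ℓ : MvPolynomial α F} {y : α → F} :
    y ∈ zeroLocus F (J ⊔ Ideal.span {ℓ}) ↔ y ∈ zeroLocus F J ∧ eval y ℓ = 0 := by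
  constructor
  · intro h
    refine ⟨zeroLocus_anti_mono le_sup_left h, ?_⟩
    have h1 := (mem_zeroLocus_iff.1 h) ℓ
      (Ideal.mem_sup_right (Ideal.subset_span (Set.mem_singleton ℓ)))
    rwa [aeval_eq_eval] at h1
  · rintro ⟨h1, h2⟩
    rw [mem_zeroLocus_iff]
    intro f hf
    obtain ⟨g, hg, r, hr, rfl⟩ := Submodule.mem_sup.1 hf
    obtain ⟨s, rfl⟩ := Ideal.mem_span_singleton.1 hr
    rw [map_add, (mem_zeroLocus_iff.1 h1) g hg, map_mul, aeval_eq_eval, h2, zero_mul, add_zero]

theorem exists_forms (d : ℕ) : ∀ J : Ideal (MvPolynomial α F),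
    (∀ a : F, ∀ y ∈ zeroLocus F J, a • y ∈ zeroLocus F J) → ¬ HasChain J (d + 1) →
    ∃ q : Fin d → MvPolynomial α F, (∀ j, IsForm (q j)) ∧
      ∀ y ∈ zeroLocus F J, (∀ j, eval y (q j) = 0) → y = 0 := by
  classical
  induction d with
  | zero =>
    intro J hJ h
    refine ⟨fun j => j.elim0, fun j => j.elim0, fun y hy _ => ?_⟩
    by_contra hy0
    exact h (hasChain_one hJ hy hy0)
  | succ d ih =>
    intro J hJ h
    let g : Ideal (MvPolynomial α F) → (α → F) := fun P =>
      if hP : ∃ w ∈ zeroLocus F P, w ≠ 0 then hP.choose else 0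
    have hg : ∀ P : Ideal (MvPolynomial α F), (∃ w ∈ zeroLocus F P, w ≠ 0) →
        g P ∈ zeroLocus F P ∧ g P ≠ 0 := by
      intro P hP
      have h1 : g P = hP.choose := dif_pos hP
      rw [h1]
      exact hP.choose_spec
    have hfin : (g '' J.minimalPrimes \ {0}).Finite :=
      ((Ideal.finite_minimalPrimes_of_isNoetherianRing _ J).image g).subset Set.sdiff_subset
    obtain ⟨ℓ, hℓ1, hℓ2⟩ := exists_linear hfin (by simp)
    obtain ⟨q, hq, hq0⟩ := ih (J ⊔ Ideal.span {ℓ}) (fun a y hy => by
      rw [mem_sup_span] at hy ⊢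
      refine ⟨hJ a y hy.1, ?_⟩
      have : Fintype α := Fintype.ofFinite α
      have h1 := eval_smul_of_homogeneous hℓ1 a y
      rw [hy.2, mul_zero] at h1
      exact h1) (by
      rintro ⟨s, hs, hs1, hs2⟩
      obtain ⟨P, hP, hPs⟩ := Ideal.exists_minimalPrimes_le (le_sup_left.trans hs1 : J ≤ s.head.asIdeal)
      have hPp : P.IsPrime := hP.1.1
      refine h ⟨s.cons ⟨P, hPp⟩ ?_, ?_, ?_, ?_⟩
      · change (⟨P, hPp⟩ : PrimeSpectrum (MvPolynomial α F)) < s.head
        rw [← PrimeSpectrum.asIdeal_lt_asIdeal]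
        refine lt_of_le_of_ne hPs fun he => ?_
        have he' : P = s.head.asIdeal := he
        by_cases hw : ∃ w ∈ zeroLocus F P, w ≠ 0
        · obtain ⟨h1, h2⟩ := hg P hw
          refine hℓ2 (g P) ⟨⟨P, hP, rfl⟩, by simpa using h2⟩ ?_
          have h3 : ℓ ∈ P := by
            rw [he']
            exact hs1 (Ideal.mem_sup_right (Ideal.subset_span (Set.mem_singleton ℓ)))
          have h4 := (mem_zeroLocus_iff.1 h1) ℓ h3
          rwa [aeval_eq_eval] at h4
        · push Not at hw
          have h1 := le_of_zeroLocus hw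
          rw [he', ← hs2] at h1
          have h2 : s.head < s.last := by
            have h3 : (0 : Fin (s.length + 1)) < Fin.last s.length := by
              rw [Fin.lt_def]
              simp only [Fin.val_zero, Fin.val_last]
              omega
            exact s.strictMono h3
          rw [← PrimeSpectrum.asIdeal_lt_asIdeal] at h2
          exact absurd h1 (not_le_of_gt h2)
      · rw [RelSeries.cons_length, hs]
      · rw [RelSeries.head_cons]
        exact hP.1.2
      · rw [RelSeries.last_cons, hs2])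
    refine ⟨Fin.cons ℓ q, ?_, fun y hy hqy => ?_⟩
    · intro j
      refine Fin.cases ?_ (fun j => ?_) j
      · exact ⟨1, one_pos, hℓ1⟩
      · exact hq j
    · refine hq0 y (mem_sup_span.2 ⟨hy, ?_⟩) fun j => ?_
      · simpa using hqy 0
      · simpa using hqy j.succ

end forms

end Pool.Agent.R388.TP
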