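import Pool.Agent.R388.TP.Core
set_option autoImplicit false

/-!
# Stability of approximation: the theorem
-/

open MvPolynomial Pool.Agent.Y129.TA Pool.Agent.Y129.TB

set_option linter.unusedSectionVars false

namespace Pool.Agent.R388.TP

variable {p : ℕ} [hp : Fact p.Prime] {C F K E : Type} [Field C] [Field F] [CharP F p] [Field K]
  [Field E] [Algebra K C] [Algebra E F]
  {α ι κ κ0 : Type} [Fintype α] [Fintype ι] [Fintype κ] [Fintype κ0]

theorem dimGE_nonempty {σ : Type} {Y : Set (σ → F)} {d : ℕ} (h : DimGE Y d) : Y.Nonempty := by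
  obtain ⟨y, hy, -⟩ := h (fun _ => 0) fun _ => isForm_zero
  exact ⟨y, hy⟩

/-- If Q1 holds for `Z`, then its equations can be made small on closed sets of the same
dimension. -/
theorem small_of_approximable [IsAlgClosed F] (T : TiltPair p C F) {Z : Set (α → C)} {dZ r0 : ℕ}
    (g0 : Fin r0 → MvPolynomial α K) (hg0 : ∀ l, IsForm (g0 l))
    (hZ : Z = {z | ∀ l, aeval z (g0 l) = 0}) (h : Approximable T K E Z dZ) :
    Small T E g0 dZ := by
  intro ε hε
  choose D hD hD' using hg0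
  obtain ⟨Y, hY1, hY2, -, hY3⟩ := h r0 g0 D hD' (fun k x hx => by rw [hZ] at hx; exact hx k) ε hε
  haveI : Infinite F := IsAlgClosed.instInfinite
  obtain ⟨s, G, hG, hYG⟩ := exists_gens hY1 (dimGE_nonempty hY2)
  refine ⟨Fin s, inferInstance, G, hG, ?_, ?_⟩
  · rw [← hYG]
    exact hY2
  · intro t ht ht1 l
    have h1 : t ∈ Y := by
      rw [hYG]
      exact ht
    have h2 := hY3 t h1 l 1 ht1
    rwa [one_pow, mul_one] at h2

/-- The dimension of a set whose equations can be made small on closed sets of dimension at least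
`dZ` is at least `dZ`. -/
theorem dimGE_of_small [IsAlgClosed C] [IsAlgClosed F] (T : Tilting p C F)
    {g0 : κ0 → MvPolynomial α K} {dZ : ℕ} (h : Small T.toTiltPair E g0 dZ) :
    DimGE {z : α → C | ∀ l, aeval z (g0 l) = 0} dZ := by
  classical
  intro q hq
  by_contra hno
  push Not at hno
  let g' : κ0 → MvPolynomial α C := fun l => MvPolynomial.map (algebraMap K C) (g0 l)
  have s1 : ∀ t : α, ∃ δ : ℝ, 0 < δ ∧ ∀ v : α → C, (∀ i, T.absK (v i) ≤ 1) →
      (∀ k, T.absK (eval v (Sum.elim g' q k)) ≤ δ) → T.absK (eval v (X t)) ≤ 1 / 2 := by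
    intro t
    refine small T.ultraK _ _ (fun v hv => ?_) (by norm_num)
    have h1 : ∀ l, aeval v (g0 l) = 0 := fun l => by
      rw [← eval_map_alg]
      exact hv (Sum.inl l)
    by_contra h2
    rw [eval_X] at h2
    obtain ⟨j, hj⟩ := hno v h1 fun h3 => h2 (by rw [h3]; rfl)
    exact hj (hv (Sum.inr j))
  choose δ₁ hδ₁ hs1 using s1
  obtain ⟨δ, hδ, hδ'⟩ := exists_pos_le δ₁ hδ₁
  obtain ⟨κ1, _, G0, hG0f, hG0d, hG0s⟩ := h δ hδ
  have a2 : ∀ j : Fin dZ, ∃ D, 0 < D ∧ ∃ g : MvPolynomial α F, g.IsHomogeneous D ∧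
      ∀ t : α → F, (∀ i, T.absF (t i) ≤ 1) → eval t g = 0 →
        T.absK (eval (fun i => T.sharp (t i)) (q j)) ≤ δ := by
    intro j
    obtain ⟨D, hD, hD'⟩ := hq j
    exact Pool.Agent.Y129.TA.approx T hD hD' hδ
  choose Dg hDg g hg hga using a2
  obtain ⟨y, hy, hy0, hgy⟩ := hG0d g fun j => ⟨Dg j, hDg j, hg j⟩
  obtain ⟨a, ha, h1, t, ht⟩ := exists_normal T.toTiltPair hy0
  have h3 := hs1 t (fun t => T.sharp (a * y t)) (fun i => by rw [T.abs_sharp]; exact h1 i) (by
    rintro (l | j)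
    · have h4 : ∀ l', aeval (fun i => a * y i) (G0 l') = 0 := by
        intro l'
        obtain ⟨D, _, hD⟩ := hG0f l'
        rw [aeval_smul hD a y, hy l', mul_zero]
      have h5 : eval (fun i => T.sharp (a * y i)) (Sum.elim g' q (Sum.inl l)) =
          aeval (fun i => T.sharp (a * y i)) (g0 l) := eval_map_alg _ _
      rw [h5]
      exact (hG0s _ h4 h1 l).trans (hδ' t)
    · refine (hga j (fun i => a * y i) h1 ?_).trans (hδ' t)
      rw [eval_smul_of_homogeneous (hg j), hgy j, mul_zero])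
  rw [eval_X, T.abs_sharp, ht] at h3
  norm_num at h3

theorem approximable_union [IsAlgClosed C] [IsAlgClosed F] (T : Tilting p C F)
    (B : BaseField T K E) [Nonempty ι] {N : ℕ} (hN : 0 < N) {d : ℕ} {c m e r0 : Fin N → ℕ}
    (h : ∀ i, Fin (c i) → MvPolynomial (Fin (m i + 1)) K) (hh : ∀ i j, IsForm (h i j))
    (g0 : ∀ i, Fin (r0 i) → MvPolynomial (Fin (m i + 1)) K) (hg0 : ∀ i j, IsForm (g0 i j))
    (hZ : ∀ i, Small T.toTiltPair E (g0 i) (d + c i))
    (f : ∀ i, ι → MvPolynomial (Fin (m i + 1)) K) (he : ∀ i, 0 < e i)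
    (hf : ∀ i j, (f i j).IsHomogeneous (e i))
    (h0 : ∀ i, NoCommonZero C (Sum.elim (h i) (g0 i)) (f i))
    (hX : DimLEOver K (⋃ i, imageOver C (Sum.elim (h i) (g0 i)) (f i)) d) :
    Approximable T.toTiltPair K E (⋃ i, imageOver C (Sum.elim (h i) (g0 i)) (f i)) d := by
  classical
  intro r P DP hPD hPX ε hε
  obtain ⟨q, hq, hq0⟩ := hX
  have hc : ∀ i, Fintype.card (Fin (c i)) + d ≤ d + c i := fun i => by
    rw [Fintype.card_fin]
    omega
  choose δ hδ Y hY1 hY2 hY3 hY4 using fun i => core T B (hh i) (hg0 i) (hf i) (he i) (h0 i) (hc i)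
    (hZ i) q (fun y hy => hq0 y (Set.mem_iUnion.2 ⟨i, hy⟩)) r P DP hPD
    (fun k x hx => hPX k x (Set.mem_iUnion.2 ⟨i, hx⟩)) ε hε
  obtain ⟨δ', hδ', hδ''⟩ := exists_pos_le δ hδ
  have a2 : ∀ j : Fin (d + 1), ∃ D, 0 < D ∧ ∃ g : MvPolynomial ι E, g.IsHomogeneous D ∧
      ∀ t : ι → F, (∀ i, T.absF (t i) ≤ 1) → aeval t g = 0 →
        T.absK (aeval (fun i => T.sharp (t i)) (q j)) ≤ δ' := by
    intro j
    obtain ⟨D, hD, hD'⟩ := hq j
    exact approx T B hD hD' hδ'
  choose Dg hDg g hg hga using a2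
  refine ⟨⋃ i, Y i, cone_iUnion Y hY1, dimGE_iUnion ⟨0, hN⟩ Y (hY2 _), ?_, ?_⟩
  · refine ⟨fun j => MvPolynomial.map (algebraMap E F) (g j),
      fun j => form_map ⟨Dg j, hDg j, hg j⟩, ?_⟩
    intro y hy hgy
    obtain ⟨i, hi⟩ := Set.mem_iUnion.1 hy
    exact hY4 i g Dg hg (fun j t ht ht0 => (hga j t ht ht0).trans (hδ'' i)) y hi fun j => by
      rw [← eval_map_alg]
      exact hgy j
  · intro y hy k
    obtain ⟨i, hi⟩ := Set.mem_iUnion.1 hy
    exact hY3 i y hi k

/-- The image of `Z ∩ V(h)` under `f`, over `C`. -/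
theorem dimGE_imageOver [IsAlgClosed C] {hs : κ → MvPolynomial α K} {g0 : κ0 → MvPolynomial α K}
    {f : ι → MvPolynomial α K} {e : ℕ} (hhs : ∀ k, IsForm (hs k))
    (hf : ∀ i, (f i).IsHomogeneous e) (he : 0 < e) (h0 : NoCommonZero C (Sum.elim hs g0) f)
    {dZ d : ℕ} (hd : Fintype.card κ + d ≤ dZ)
    (hZ : DimGE {z : α → C | ∀ l, aeval z (g0 l) = 0} dZ) :
    DimGE (imageOver C (Sum.elim hs g0) f) d := by
  classical
  intro q hq
  obtain ⟨z, hz, hz0, hqz⟩ := dimGE_fintype hZ (κ := κ ⊕ Fin d)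
    (by rw [Fintype.card_sum, Fintype.card_fin]; exact hd)
    (Sum.elim (fun k => MvPolynomial.map (algebraMap K C) (hs k))
      (fun j => aeval (fun i => MvPolynomial.map (algebraMap K C) (f i)) (q j))) (by
      rintro (k | j)
      · exact form_map (hhs k)
      · exact form_comp (hq j) he fun i => (hf i).map _)
  have h1 : ∀ k, aeval z (Sum.elim hs g0 k) = 0 := by
    rintro (k | l)
    · have h2 := hqz (Sum.inl k)
      rw [Sum.elim_inl, eval_map_alg] at h2
      exact h2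
    · exact hz l
  refine ⟨fun i => aeval z (f i), ⟨z, h1, fun i => rfl⟩, fun hy => ?_, fun j => ?_⟩
  · exact hz0 (h0 z h1 fun i => congrFun hy i)
  · have h2 := hqz (Sum.inr j)
    rw [Sum.elim_inr] at h2
    rw [← h2]
    have h3 : ∀ Q : MvPolynomial ι C,
        eval z (aeval (fun i => MvPolynomial.map (algebraMap K C) (f i)) Q) =
          eval (fun i => aeval z (f i)) Q := by
      intro Q
      rw [← aeval_eq_eval, ← AlgHom.comp_apply, comp_aeval, ← aeval_eq_eval]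
      congr 2
      funext i
      rw [aeval_eq_eval]
      exact eval_map_alg _ _
    exact (h3 _).symm

end Pool.Agent.R388.TP
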