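import Pool.Agent.R388.TP.Join
import Pool.Agent.Y129.TB.Union
set_option autoImplicit false

/-!
# Homogeneous equations of a closed cone; dimension of images
-/

open MvPolynomial Pool.Agent.Y129.TA Pool.Agent.Y129.TB

namespace Pool.Agent.R388.TP

section gens

variable {k L : Type} [Field k] [Field L] [Algebra k L] [Infinite L] {α : Type} [Fintype α]

theorem aeval_smul {Q : MvPolynomial α k} {D : ℕ} (hQ : Q.IsHomogeneous D) (a : L) (t : α → L) :
    aeval (fun i => a * t i) Q = a ^ D * aeval t Q := by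
  rw [← eval_map_alg, ← eval_map_alg]
  exact eval_smul_of_homogeneous (hQ.map _) a t

theorem component_zero {X : Set (α → L)} (hX : ∀ a : L, ∀ y ∈ X, a • y ∈ X)
    {g : MvPolynomial α k} (hg : ∀ x ∈ X, aeval x g = 0) (n : ℕ) {x : α → L} (hx : x ∈ X) :
    aeval x (homogeneousComponent n g) = 0 := by
  classical
  let P : Polynomial L := ∑ i ∈ Finset.range (g.totalDegree + 1),
    Polynomial.C (aeval x (homogeneousComponent i g)) * Polynomial.X ^ i
  have hP : P = 0 := by
    apply Polynomial.funext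
    intro a
    rw [Polynomial.eval_zero, Polynomial.eval_finset_sum]
    have h1 := hg _ (hX a x hx)
    rw [← sum_homogeneousComponent g, map_sum] at h1
    rw [← h1]
    refine Finset.sum_congr rfl fun i _ => ?_
    rw [Polynomial.eval_mul, Polynomial.eval_C, Polynomial.eval_pow, Polynomial.eval_X]
    have h2 := aeval_smul (homogeneousComponent_isHomogeneous i g) a x
    rw [mul_comm, ← h2]
    rfl
  by_cases hn : n ≤ g.totalDegree
  · have h1 := congrArg (fun p => p.coeff n) hP
    simp only [P, Polynomial.finset_sum_coeff, Polynomial.coeff_C_mul, Polynomial.coeff_X_pow,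
      Polynomial.coeff_zero, mul_ite, mul_one, mul_zero] at h1
    rw [Finset.sum_ite_eq] at h1
    rw [if_pos (Finset.mem_range.2 (Nat.lt_succ_of_le hn))] at h1
    exact h1
  · rw [homogeneousComponent_eq_zero _ _ (not_le.1 hn), map_zero]

/-- A nonempty closed cone is the set of the common zeros of finitely many forms. -/
theorem exists_gens {X : Set (α → L)} (hX : IsConeOver k X) (hne : X.Nonempty) :
    ∃ (r : ℕ) (g : Fin r → MvPolynomial α k), (∀ l, IsForm (g l)) ∧
      X = {x | ∀ l, aeval x (g l) = 0} := by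
  classical
  obtain ⟨⟨J, hJ⟩, hc⟩ := hX
  obtain ⟨S, hS⟩ : J.FG := IsNoetherian.noetherian J
  let G : Finset (MvPolynomial α k) :=
    S.biUnion fun g => (Finset.range (g.totalDegree + 1)).image fun n => homogeneousComponent n g
  have hS0 : ∀ g ∈ S, ∀ x ∈ X, aeval x g = 0 := by
    intro g hg x hx
    rw [hJ] at hx
    exact (mem_zeroLocus_iff.1 hx) g (hS ▸ Ideal.subset_span hg)
  have h0 : (0 : α → L) ∈ X := by
    obtain ⟨y, hy⟩ := hne
    have h1 := hc 0 y hy
    rwa [zero_smul] at h1
  have hG : ∀ P ∈ G, IsForm P ∧ ∀ x ∈ X, aeval x P = 0 := by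
    intro P hP
    obtain ⟨g, hg, hP⟩ := Finset.mem_biUnion.1 hP
    obtain ⟨n, -, rfl⟩ := Finset.mem_image.1 hP
    have h1 : ∀ x ∈ X, aeval x (homogeneousComponent n g) = 0 := fun x hx =>
      component_zero hc (hS0 g hg) n hx
    refine ⟨?_, h1⟩
    rcases Nat.eq_zero_or_pos n with hn | hn
    · subst hn
      have h2 := h1 0 h0
      rw [homogeneousComponent_zero, aeval_C] at h2
      have h3 : coeff 0 g = 0 := (map_eq_zero _).1 h2
      rw [homogeneousComponent_zero, h3, map_zero]
      exact ⟨1, one_pos, isHomogeneous_zero _ _ _⟩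
    · exact ⟨n, hn, homogeneousComponent_isHomogeneous n g⟩
  refine ⟨G.card, fun l => (G.equivFin.symm l : MvPolynomial α k),
    fun l => (hG _ (G.equivFin.symm l).2).1, ?_⟩
  ext x
  constructor
  · intro hx l
    exact (hG _ (G.equivFin.symm l).2).2 x hx
  · intro hx
    have h1 : ∀ P ∈ G, aeval x P = 0 := by
      intro P hP
      have h2 : aeval x ((G.equivFin.symm (G.equivFin ⟨P, hP⟩) : G) : MvPolynomial α k) = 0 :=
        hx (G.equivFin ⟨P, hP⟩)
      rw [Equiv.symm_apply_apply] at h2
      exact h2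
    rw [hJ, mem_zeroLocus_iff]
    have h2 : J ≤ RingHom.ker (aeval x : MvPolynomial α k →ₐ[k] L) := by
      rw [← hS]
      refine Ideal.span_le.2 fun g hg => ?_
      change aeval x g = 0
      rw [← sum_homogeneousComponent g, map_sum]
      refine Finset.sum_eq_zero fun n hn => h1 _ ?_
      exact Finset.mem_biUnion.2 ⟨g, hg, Finset.mem_image.2 ⟨n, hn, rfl⟩⟩
    exact fun f hf => h2 hf

end gens

section dim

variable {F : Type} [Field F]

theorem isForm_zero {σ : Type} : IsForm (0 : MvPolynomial σ F) := ⟨1, one_pos, isHomogeneous_zero _ _ _⟩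

theorem dimGE_fintype {σ : Type} {Y : Set (σ → F)} {N : ℕ} (h : DimGE Y N) {κ : Type} [Fintype κ]
    (hκ : Fintype.card κ ≤ N) (q : κ → MvPolynomial σ F) (hq : ∀ k, IsForm (q k)) :
    ∃ y ∈ Y, y ≠ 0 ∧ ∀ k, eval y (q k) = 0 := by
  classical
  let e := Fintype.equivFin κ
  let Q : Fin N → MvPolynomial σ F := fun j =>
    if hj : (j : ℕ) < Fintype.card κ then q (e.symm ⟨j, hj⟩) else 0
  obtain ⟨y, hy, hy0, hQ⟩ := h Q fun j => by
    by_cases hj : (j : ℕ) < Fintype.card κ
    · simp only [Q, dif_pos hj]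
      exact hq _
    · simp only [Q, dif_neg hj]
      exact isForm_zero
  refine ⟨y, hy, hy0, fun k => ?_⟩
  have h1 := hQ ⟨e k, (e k).isLt.trans_le hκ⟩
  simp only [Q] at h1
  rw [dif_pos (e k).isLt] at h1
  have h2 : e.symm ⟨(e k : ℕ), (e k).isLt⟩ = k := e.symm_apply_apply k
  rwa [h2] at h1

/-- The dimension of the image of a section of the join. -/
theorem dimGE_image [IsAlgClosed F] {E : Type} [Field E] [Algebra E F] {α ι κG κ1 : Type}
    [Fintype α] [Fintype ι] [Fintype κG] {G : κG → MvPolynomial (α ⊕ ι) E} (hG : ∀ k, IsForm (G k))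
    {G0 : κ1 → MvPolynomial α E} (hG0 : ∀ l, IsForm (G0 l)) {dZ d e : ℕ} (he : 0 < e)
    (hdim : DimGE {t : α → F | ∀ l, aeval t (G0 l) = 0} dZ)
    (hno : ∀ w : α ⊕ ι → F,
      (∀ k, aeval w (Sum.elim G (fun l => rename Sum.inl (G0 l)) k) = 0) →
      (∀ i, aeval w (X (Sum.inr i) ^ e : MvPolynomial (α ⊕ ι) E) = 0) → w = 0)
    (hcard : Fintype.card κG + d ≤ dZ + Fintype.card ι) :
    DimGE (imageOver F (Sum.elim G (fun l => rename Sum.inl (G0 l)))
      (fun i => (X (Sum.inr i) ^ e : MvPolynomial (α ⊕ ι) E))) d := by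
  intro q hq
  let J : Ideal (MvPolynomial α F) :=
    Ideal.span (Set.range fun l => MvPolynomial.map (algebraMap E F) (G0 l))
  have hJ : zeroLocus F J = {t : α → F | ∀ l, aeval t (G0 l) = 0} := by
    ext t
    rw [mem_zeroLocus_iff]
    constructor
    · intro h l
      have h1 := h _ (Ideal.subset_span ⟨l, rfl⟩)
      rw [aeval_eq_eval] at h1
      rw [← eval_map_alg]
      exact h1
    · intro h f hf
      have h1 : J ≤ RingHom.ker (aeval t : MvPolynomial α F →ₐ[F] F) := by
        refine Ideal.span_le.2 ?_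
        rintro _ ⟨l, rfl⟩
        change aeval t (MvPolynomial.map (algebraMap E F) (G0 l)) = 0
        rw [aeval_eq_eval]
        exact (eval_map_alg _ _).trans (h l)
      exact h1 hf
  have hcone : ∀ a : F, ∀ y ∈ zeroLocus F J, a • y ∈ zeroLocus F J := by
    intro a y hy
    rw [hJ] at hy ⊢
    intro l
    obtain ⟨D, _, hD⟩ := hG0 l
    have h1 := aeval_smul hD a y
    rw [hy l, mul_zero] at h1
    exact h1
  rw [← hJ] at hdim
  have h1 := dimGE_sum hcone hdim ι
  obtain ⟨w, hw, hw0, hqw⟩ := dimGE_fintype h1 (κ := κG ⊕ Fin d)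
    (by rw [Fintype.card_sum, Fintype.card_fin, Nat.card_eq_fintype_card]; exact hcard)
    (Sum.elim (fun k => MvPolynomial.map (algebraMap E F) (G k))
      (fun j => aeval (fun i => (X (Sum.inr i) ^ e : MvPolynomial (α ⊕ ι) F)) (q j))) (by
      rintro (k | j)
      · exact form_map (hG k)
      · exact form_comp (hq j) he fun i => isHomogeneous_X_pow _ _)
  have hGw : ∀ k, aeval w (G k) = 0 := fun k => by
    have h2 := hqw (Sum.inl k)
    rw [Sum.elim_inl, eval_map_alg] at h2
    exact h2
  have hE0 : ∀ k, aeval w (Sum.elim G (fun l => rename Sum.inl (G0 l)) k) = 0 := by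
    rintro (k | l)
    · exact hGw k
    · have h2 : (fun a => w (Sum.inl a)) ∈ zeroLocus F J := hw
      rw [hJ] at h2
      rw [Sum.elim_inr, aeval_rename]
      exact h2 l
  refine ⟨fun i => w (Sum.inr i) ^ e, ⟨w, hE0, fun i => by rw [map_pow, aeval_X]⟩, fun hy => ?_,
    fun j => ?_⟩
  · exact hw0 (hno w hE0 fun i => by
      rw [map_pow, aeval_X]
      exact congrFun hy i)
  · have h2 := hqw (Sum.inr j)
    rw [Sum.elim_inr] at h2
    have h3 := eval_pull (α := α) e (q j) w
    rw [← h3]
    exact h2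

end dim

end Pool.Agent.R388.TP
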