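import Pool.Agent.R388.TP.Toric
set_option autoImplicit false

/-!
# Algebraically independent elements; tensor products
-/

open MvPolynomial Pool.Agent.Y129.TA Pool.Agent.Y129.TB
open scoped TensorProduct

namespace Pool.Agent.R388.TP

/-- A closed cone of dimension at least `d` is contained in... : there is a prime ideal containing the
ideal such that the quotient contains `d + 1` algebraically independent elements. -/
theorem exists_algInd {F : Type} [Field F] [IsAlgClosed F] {α : Type} [Finite α]
    {J : Ideal (MvPolynomial α F)} {d : ℕ}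
    (hcone : ∀ a : F, ∀ y ∈ zeroLocus F J, a • y ∈ zeroLocus F J) (h : DimGE (zeroLocus F J) d) :
    ∃ P : Ideal (MvPolynomial α F), P.IsPrime ∧ J ≤ P ∧
      ∃ z : Fin (d + 1) → MvPolynomial α F ⧸ P, AlgebraicIndependent F z := by
  have hch : HasChain J (d + 1) := by
    by_contra hno
    obtain ⟨q, hq, h0⟩ := exists_forms d J hcone hno
    obtain ⟨y, hy, hy0, hqy⟩ := h q hq
    exact hy0 (h0 y hy hqy)
  obtain ⟨s, hs, hJ, -⟩ := hch
  have hP : s.head.asIdeal.IsPrime := s.head.2
  refine ⟨s.head.asIdeal, hP, hJ, ?_⟩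
  obtain ⟨r, g, hg, hgi⟩ := exists_integral_inj_algHom_of_fg F (MvPolynomial α F ⧸ s.head.asIdeal)
  have hr : d + 1 ≤ r := by
    let : Algebra (MvPolynomial (Fin r) F) (MvPolynomial α F ⧸ s.head.asIdeal) :=
      g.toRingHom.toAlgebra
    have hint : Algebra.IsIntegral (MvPolynomial (Fin r) F)
      (MvPolynomial α F ⧸ s.head.asIdeal) := ⟨hgi⟩
    have hle : ∀ i, s.head.asIdeal ≤ (s i).asIdeal := fun i =>
      PrimeSpectrum.asIdeal_le_asIdeal _ _ |>.2 (s.head_le i)
    have hpr : ∀ i, ((s i).asIdeal.map (Ideal.Quotient.mk s.head.asIdeal)).IsPrime := fun i => by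
      have := (s i).2
      refine Ideal.map_isPrime_of_surjective Ideal.Quotient.mk_surjective ?_
      rw [Ideal.mk_ker]
      exact hle i
    have hlt : ∀ i j, i < j → (s i).asIdeal.map (Ideal.Quotient.mk s.head.asIdeal) <
        (s j).asIdeal.map (Ideal.Quotient.mk s.head.asIdeal) := by
      intro i j hij
      have h1 : (s i).asIdeal < (s j).asIdeal :=
        (PrimeSpectrum.asIdeal_lt_asIdeal _ _).2 (s.strictMono hij)
      have h2 : ∀ i, ((s i).asIdeal.map (Ideal.Quotient.mk s.head.asIdeal)).comap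
          (Ideal.Quotient.mk s.head.asIdeal) = (s i).asIdeal := fun i =>
        Ideal.comap_map_mk (hle i)
      refine lt_of_le_of_ne (Ideal.map_mono h1.le) fun h3 => h1.ne ?_
      rw [← h2 i, h3, h2 j]
    let t : LTSeries (PrimeSpectrum (MvPolynomial (Fin r) F)) :=
      LTSeries.mk s.length (fun i => ⟨((s i).asIdeal.map (Ideal.Quotient.mk s.head.asIdeal)).comap
        (algebraMap (MvPolynomial (Fin r) F) (MvPolynomial α F ⧸ s.head.asIdeal)),
          (hpr i).comap _⟩) (by
        intro i j hij
        rw [← PrimeSpectrum.asIdeal_lt_asIdeal]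
        have := hpr i
        exact Ideal.IsIntegral.comap_lt_comap (hlt i j hij))
    have h4 : (t.length : WithBot ℕ∞) ≤ ringKrullDim (MvPolynomial (Fin r) F) :=
      Order.LTSeries.length_le_krullDim t
    rw [MvPolynomial.ringKrullDim_of_isNoetherianRing, ringKrullDim_eq_zero_of_field, zero_add,
      Nat.card_fin] at h4
    have h5 : t.length = d + 1 := hs
    rw [h5] at h4
    exact_mod_cast h4
  refine ⟨fun i => g (X (Fin.castLE hr i)), ?_⟩
  have h6 : AlgebraicIndependent F fun i : Fin r => g (X i) := by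
    have h7 : (aeval fun i : Fin r => g (X i)) = g := by
      ext i
      rw [aeval_X]
    change Function.Injective (aeval fun i : Fin r => g (X i))
    rw [h7]
    exact hg
  exact h6.comp _ (Fin.castLE_injective hr)

/-- A prime ideal of the tensor product which preserves algebraic independence. -/
theorem exists_domain {F A1 A2 : Type} [Field F] [CommRing A1] [CommRing A2] [IsDomain A1]
    [IsDomain A2] [Algebra F A1] [Algebra F A2] {σ τ : Type} {z1 : σ → A1} {z2 : τ → A2}
    (h1 : AlgebraicIndependent F z1) (h2 : AlgebraicIndependent F z2) :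
    ∃ Q : Ideal (A1 ⊗[F] A2), Q.IsPrime ∧ AlgebraicIndependent F fun t : σ ⊕ τ =>
      Ideal.Quotient.mkₐ F Q (Sum.elim (fun i => z1 i ⊗ₜ[F] 1) (fun j => 1 ⊗ₜ[F] z2 j) t) := by
  classical
  let w : σ ⊕ τ → A1 ⊗[F] A2 := Sum.elim (fun i => z1 i ⊗ₜ[F] 1) (fun j => 1 ⊗ₜ[F] z2 j)
  have hv1 : LinearIndependent F fun a : σ →₀ ℕ => aeval z1 (monomial a (1 : F)) := by
    have h := (basisMonomials σ F).linearIndependent.map' (aeval z1).toLinearMap
      (LinearMap.ker_eq_bot.2 h1)
    simpa [Function.comp_def] using h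
  have hv2 : LinearIndependent F fun a : τ →₀ ℕ => aeval z2 (monomial a (1 : F)) := by
    have h := (basisMonomials τ F).linearIndependent.map' (aeval z2).toLinearMap
      (LinearMap.ker_eq_bot.2 h2)
    simpa [Function.comp_def] using h
  have hv := (hv1.tmul_of_isDomain hv2).comp Finsupp.sumFinsuppEquivProdFinsupp
    (Finsupp.sumFinsuppEquivProdFinsupp (α := σ) (β := τ) (γ := ℕ)).injective
  have hmon : ∀ (γ : σ ⊕ τ →₀ ℕ) (c : F), aeval w (monomial γ c) =
      c • ((fun i : (σ →₀ ℕ) × (τ →₀ ℕ) => aeval z1 (monomial i.1 (1 : F)) ⊗ₜ[F]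
        aeval z2 (monomial i.2 (1 : F))) (Finsupp.sumFinsuppEquivProdFinsupp γ)) := by
    intro γ c
    have h3 : (monomial γ c : MvPolynomial (σ ⊕ τ) F) = C c *
        (rename Sum.inl (monomial (Finsupp.sumFinsuppEquivProdFinsupp γ).1 1) *
          rename Sum.inr (monomial (Finsupp.sumFinsuppEquivProdFinsupp γ).2 1)) := by
      have hγ : γ = Finsupp.mapDomain Sum.inl (Finsupp.sumFinsuppEquivProdFinsupp γ).1 +
          Finsupp.mapDomain Sum.inr (Finsupp.sumFinsuppEquivProdFinsupp γ).2 := by
        ext t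
        rcases t with i | j
        · rw [Finsupp.add_apply, Finsupp.mapDomain_apply Sum.inl_injective,
            Finsupp.mapDomain_notin_range]
          · simp
          · simp
        · rw [Finsupp.add_apply, Finsupp.mapDomain_apply Sum.inr_injective,
            Finsupp.mapDomain_notin_range]
          · simp
          · simp
      rw [rename_monomial, rename_monomial, monomial_mul, C_mul_monomial, ← hγ, mul_one, mul_one]
    have h4 : ∀ P : MvPolynomial σ F, aeval w (rename Sum.inl P) = aeval z1 P ⊗ₜ[F] 1 := by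
      intro P
      rw [aeval_rename]
      have h5 : (aeval (w ∘ Sum.inl) : MvPolynomial σ F →ₐ[F] A1 ⊗[F] A2) =
          (Algebra.TensorProduct.includeLeft (S := F)).comp (aeval z1) := by
        ext i
        simp [w]
      rw [h5]
      rfl
    have h5 : ∀ P : MvPolynomial τ F, aeval w (rename Sum.inr P) = 1 ⊗ₜ[F] aeval z2 P := by
      intro P
      rw [aeval_rename]
      have h5 : (aeval (w ∘ Sum.inr) : MvPolynomial τ F →ₐ[F] A1 ⊗[F] A2) =
          (Algebra.TensorProduct.includeRight).comp (aeval z2) := by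
        ext i
        simp [w]
      rw [h5]
      rfl
    rw [h3, map_mul, map_mul, h4, h5, aeval_C, Algebra.TensorProduct.tmul_mul_tmul, mul_one,
      one_mul, Algebra.smul_def]
  have hw : Function.Injective (aeval w : MvPolynomial (σ ⊕ τ) F →ₐ[F] A1 ⊗[F] A2) := by
    rw [injective_iff_map_eq_zero]
    intro P hP
    rw [← support_sum_monomial_coeff P, map_sum] at hP
    simp only [hmon] at hP
    have h3 := (linearIndependent_iff'.1 hv) P.support (fun γ => coeff γ P) hP
    ext γ
    rw [coeff_zero]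
    by_cases hγ : γ ∈ P.support
    · exact h3 γ hγ
    · exact notMem_support_iff.1 hγ
  obtain ⟨Q, hQ, -, hdis⟩ := Ideal.exists_le_prime_disjoint (⊥ : Ideal (A1 ⊗[F] A2))
    ((nonZeroDivisors (MvPolynomial (σ ⊕ τ) F)).map (aeval w)) (by
      rw [Set.disjoint_left]
      rintro x hx ⟨P, hP, hPx⟩
      have h3 : x = 0 := hx
      rw [h3] at hPx
      have h4 : P = 0 := hw (by rw [map_zero]; exact hPx)
      exact nonZeroDivisors.ne_zero hP h4)
  refine ⟨Q, hQ, ?_⟩
  change Function.Injective (aeval fun t => Ideal.Quotient.mkₐ F Q (w t))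
  rw [injective_iff_map_eq_zero]
  intro P hP
  have h3 : (aeval fun t => Ideal.Quotient.mkₐ F Q (w t)) =
      (Ideal.Quotient.mkₐ F Q).comp (aeval w) := by
    ext t
    simp
  rw [h3] at hP
  have h4 : aeval w P ∈ Q := Ideal.Quotient.eq_zero_iff_mem.1 hP
  by_contra hP0
  exact (Set.disjoint_left.1 hdis) h4 ⟨P, mem_nonZeroDivisors_of_ne_zero hP0, rfl⟩

end Pool.Agent.R388.TP
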