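import Pool.Agent.R388.TP.Dim
set_option autoImplicit false

/-!
# The dimension of the join with a linear space
-/

open MvPolynomial Pool.Agent.Y129.TA

namespace Pool.Agent.R388.TP

section option

variable {F : Type} [Field F] [IsAlgClosed F] {α : Type} [Finite α]

/-- The homomorphism from the polynomials in `α` and one more variable to `A[X]`, `A = F[α]/J`. -/
noncomputable def psi (J : Ideal (MvPolynomial α F)) :
    MvPolynomial (Option α) F →ₐ[F] Polynomial (MvPolynomial α F ⧸ J) :=
  aeval fun o : Option α => o.elim Polynomial.X fun a => Polynomial.C (Ideal.Quotient.mk J (X a))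

theorem psi_rename (J : Ideal (MvPolynomial α F)) (f : MvPolynomial α F) :
    psi J (rename some f) = Polynomial.C (Ideal.Quotient.mk J f) := by
  have h : ((psi J : MvPolynomial (Option α) F →+* Polynomial (MvPolynomial α F ⧸ J)).comp
      (rename some : MvPolynomial α F →ₐ[F] MvPolynomial (Option α) F).toRingHom) =
      Polynomial.C.comp (Ideal.Quotient.mk J) := by
    apply MvPolynomial.ringHom_ext
    · intro c
      simp [psi]
      rfl
    · intro a
      simp [psi]
  exact congrArg (fun g => g f) h

theorem psi_none (J : Ideal (MvPolynomial α F)) : psi J (X none) = Polynomial.X := by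
  simp [psi]

theorem psi_surjective (J : Ideal (MvPolynomial α F)) : Function.Surjective (psi J) := by
  intro b
  induction b using Polynomial.induction_on' with
  | add p q hp hq =>
    obtain ⟨f, rfl⟩ := hp
    obtain ⟨g, rfl⟩ := hq
    exact ⟨f + g, map_add _ _ _⟩
  | monomial n a =>
    obtain ⟨r, rfl⟩ := Ideal.Quotient.mk_surjective a
    refine ⟨rename some r * X none ^ n, ?_⟩
    rw [map_mul, map_pow, psi_rename, psi_none, Polynomial.C_mul_X_pow_eq_monomial]

theorem psi_eval_zero (J : Ideal (MvPolynomial α F)) (f : MvPolynomial (Option α) F) :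
    ∃ g : MvPolynomial α F, (psi J f).eval 0 = Ideal.Quotient.mk J g ∧
      eval (0 : α → F) g = eval (0 : Option α → F) f := by
  induction f using MvPolynomial.induction_on with
  | C c =>
    refine ⟨C c, ?_, by rw [eval_C, eval_C]⟩
    have h1 : (C c : MvPolynomial (Option α) F) = rename some (C c) := by rw [rename_C]
    rw [h1, psi_rename, Polynomial.eval_C]
  | add p q hp hq =>
    obtain ⟨f, hf, hf'⟩ := hp
    obtain ⟨g, hg, hg'⟩ := hq
    exact ⟨f + g, by rw [map_add, Polynomial.eval_add, hf, hg, map_add],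
      by rw [map_add, map_add, hf', hg']⟩
  | mul_X p o hp =>
    obtain ⟨f, hf, hf'⟩ := hp
    cases o with
    | none =>
      refine ⟨0, ?_, ?_⟩
      · rw [map_mul, psi_none, Polynomial.eval_mul, Polynomial.eval_X, mul_zero, map_zero]
      · rw [map_mul, eval_X, map_zero]
        simp
    | some a =>
      refine ⟨f * X a, ?_, ?_⟩
      · have h1 : (X (some a) : MvPolynomial (Option α) F) = rename some (X a) := by rw [rename_X]
        rw [map_mul, h1, psi_rename, Polynomial.eval_mul, Polynomial.eval_C, hf, map_mul]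
      · rw [map_mul, map_mul, eval_X, eval_X, hf']
        rfl

theorem height_le_of_span {B : Type} [CommRing B] [IsNoetherianRing B] (P : Ideal B)
    [hP : P.IsMaximal] {k : ℕ} (b : Fin k → B) (hb : ∀ j, b j ∈ P)
    (hmin : ∀ q : Ideal B, q.IsPrime → (∀ j, b j ∈ q) → P ≤ q) : P.height ≤ (k : ℕ∞) := by
  have h0 : P ∈ (Ideal.span (Set.range b)).minimalPrimes := by
    refine ⟨⟨hP.isPrime, ?_⟩, fun q hq _ => hmin q hq.1 fun j => hq.2 (Ideal.subset_span ⟨j, rfl⟩)⟩
    rw [Ideal.span_le]
    rintro _ ⟨j, rfl⟩
    exact hb j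
  have h1 := Ideal.height_le_card_of_mem_minimalPrimes_span (Set.finite_range _) h0
  have h2 : (Set.range b).ncard ≤ k := by
    rw [← Set.image_univ]
    refine (Set.ncard_image_le Set.finite_univ).trans ?_
    rw [Set.ncard_univ, Nat.card_eq_fintype_card, Fintype.card_fin]
  exact h1.trans (by exact_mod_cast h2)

theorem poly_step {A : Type} [CommRing A] [IsNoetherianRing A] (M : Ideal A) [hM : M.IsMaximal]
    {n : ℕ} (hht : (n : ℕ∞) ≤ M.height) (b : Fin n → Polynomial A)
    (hb : ∀ j, (b j).eval 0 ∈ M)
    (hmin : ∀ q : Ideal (Polynomial A), q.IsPrime → (∀ j, b j ∈ q) →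
      ∀ x : Polynomial A, x.eval 0 ∈ M → x ∈ q) : False := by
  let ev0 : Polynomial A →+* A := Polynomial.evalRingHom 0
  have hev : Function.Surjective ev0 := fun a => ⟨Polynomial.C a, by simp [ev0]⟩
  let P : Ideal (Polynomial A) := M.comap ev0
  have hP : P.IsMaximal := Ideal.comap_isMaximal_of_surjective ev0 hev
  have hPM : P.LiesOver M := ⟨by
    ext a
    change a ∈ M ↔ ev0 (algebraMap _ _ a) ∈ M
    simp [ev0]⟩
  have hh := Polynomial.height_eq_height_add_one M P
  have hle : P.height ≤ (n : ℕ∞) := height_le_of_span P b hb fun q hq hqb x hx => hmin q hq hqb x hx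
  rw [hh] at hle
  have h3 : (n : ℕ∞) + 1 ≤ (n : ℕ∞) := (add_le_add hht le_rfl).trans hle
  have h4 : n + 1 ≤ n := by exact_mod_cast h3
  omega

/-- Adding one free variable raises the dimension by one. -/
theorem dimGE_option {J : Ideal (MvPolynomial α F)}
    (hJ : ∀ a : F, ∀ y ∈ zeroLocus F J, a • y ∈ zeroLocus F J) {d : ℕ}
    (h : DimGE (zeroLocus F J) d) :
    DimGE {w : Option α → F | (fun a => w (some a)) ∈ zeroLocus F J} (d + 1) := by
  classical
  intro Q hQ
  by_contra hno
  push Not at hno
  have hno' : ∀ w : Option α → F, (fun a => w (some a)) ∈ zeroLocus F J →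
      (∀ j, eval w (Q j) = 0) → w = 0 := by
    intro w hw hw2
    by_contra hw0
    obtain ⟨j, hj⟩ := hno w hw hw0
    exact hj (hw2 j)
  have hchain : ¬ HasChain J (d + 1) := by
    rintro ⟨s, hs, hs1, hs2⟩
    have hmem : ∀ i, s i ∈ PrimeSpectrum.zeroLocus (J : Set (MvPolynomial α F)) := fun i => by
      have h1 : s.head ≤ s i := s.monotone (Fin.zero_le i)
      exact hs1.trans ((PrimeSpectrum.asIdeal_le_asIdeal _ _).2 h1)
    let e := Ideal.primeSpectrumQuotientOrderIsoZeroLocus J
    let t : LTSeries (PrimeSpectrum (MvPolynomial α F ⧸ J)) :=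
      { length := s.length
        toFun := fun i => e.symm ⟨s i, hmem i⟩
        step := fun i => e.symm.strictMono (s.step i) }
    set M : PrimeSpectrum (MvPolynomial α F ⧸ J) := t.last with hM
    have hMc : M.asIdeal.comap (Ideal.Quotient.mk J) = vanishingIdeal F {(0 : α → F)} := by
      have h1 : e M = ⟨s.last, hmem _⟩ := e.apply_symm_apply _
      have h2 : (e M).1.asIdeal = s.last.asIdeal := by rw [h1]
      rw [← hs2, ← h2]
      rfl
    have hmax0 : (vanishingIdeal F {(0 : α → F)} : Ideal (MvPolynomial α F)).IsMaximal :=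
      isMaximal_iff_eq_vanishingIdeal_singleton.2 ⟨0, rfl⟩
    have hMmax : M.asIdeal.IsMaximal := by
      have h1 : (M.asIdeal.comap (Ideal.Quotient.mk J)).IsMaximal := by rw [hMc]; exact hmax0
      have h2 := Ideal.map_comap_of_surjective (Ideal.Quotient.mk J) Ideal.Quotient.mk_surjective
        M.asIdeal
      rcases Ideal.map_eq_top_or_isMaximal_of_surjective (Ideal.Quotient.mk J)
        Ideal.Quotient.mk_surjective h1 with h3 | h3
      · rw [h2] at h3
        exact absurd h3 M.2.ne_top
      · rwa [h2] at h3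
    have hht : ((d + 1 : ℕ) : ℕ∞) ≤ M.asIdeal.height := by
      have h1 : (t.length : ℕ∞) ≤ Order.height t.last := Order.length_le_height_last
      have h2 : t.length = d + 1 := hs
      rw [h2, ← PrimeSpectrum.height_eq_orderHeight] at h1
      exact h1
    have hmemP : ∀ f : MvPolynomial (Option α) F,
        (psi J f).eval 0 ∈ M.asIdeal ↔ eval (0 : Option α → F) f = 0 := by
      intro f
      obtain ⟨g, hg, hg'⟩ := psi_eval_zero J f
      rw [hg, ← hg', ← Ideal.mem_comap, hMc, mem_vanishingIdeal_singleton_iff, aeval_eq_eval]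
    refine poly_step M.asIdeal hht (fun j => psi J (Q j)) (fun j => ?_) fun q hqp hqQ b hb => ?_
    · rw [hmemP]
      have : Fintype (Option α) := Fintype.ofFinite _
      exact form_zero (hQ j)
    · let φ : MvPolynomial (Option α) F →+* Polynomial (MvPolynomial α F ⧸ J) := psi J
      have hqp' : (q.comap φ).IsPrime := Ideal.comap_isPrime _ _
      have h1 : vanishingIdeal F {(0 : Option α → F)} ≤ q.comap φ := by
        refine le_of_zeroLocus fun w hw => hno' w ?_ fun j => ?_
        · rw [mem_zeroLocus_iff]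
          intro f hf
          have h2 : rename some f ∈ q.comap φ := by
            rw [Ideal.mem_comap]
            change psi J (rename some f) ∈ q
            rw [psi_rename, Ideal.Quotient.eq_zero_iff_mem.2 hf, map_zero]
            exact q.zero_mem
          have h3 := (mem_zeroLocus_iff.1 hw) _ h2
          rw [aeval_rename] at h3
          exact h3
        · have h2 : Q j ∈ q.comap φ := by
            rw [Ideal.mem_comap]
            exact hqQ j
          have h3 := (mem_zeroLocus_iff.1 hw) _ h2
          rwa [aeval_eq_eval] at h3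
      obtain ⟨f, rfl⟩ := psi_surjective J b
      have h2 : f ∈ vanishingIdeal F {(0 : Option α → F)} := by
        rw [mem_vanishingIdeal_singleton_iff, aeval_eq_eval]
        exact (hmemP f).1 hb
      exact h1 h2
  obtain ⟨q, hq, hq0⟩ := exists_forms d J hJ hchain
  obtain ⟨y, hy, hy0, hqy⟩ := h q hq
  exact hy0 (hq0 y hy hqy)

end option

section sum

variable {F : Type} [Field F] [IsAlgClosed F]

theorem dimGE_equiv {σ τ : Type} (e : τ ≃ σ) {Y : Set (σ → F)} {d : ℕ}
    (h : DimGE Y d) : DimGE {w : τ → F | (fun s => w (e.symm s)) ∈ Y} d := by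
  intro q hq
  obtain ⟨y, hy, hy0, hqy⟩ := h (fun j => rename e (q j)) fun j => by
    obtain ⟨D, hD, h1⟩ := hq j
    exact ⟨D, hD, h1.rename_isHomogeneous⟩
  refine ⟨fun t => y (e t), ?_, fun h0 => hy0 ?_, fun j => ?_⟩
  · have h1 : (fun s => y (e (e.symm s))) = y := by
      funext s
      rw [e.apply_symm_apply]
    change (fun s => y (e (e.symm s))) ∈ Y
    rw [h1]
    exact hy
  · funext s
    have h1 := congrFun h0 (e.symm s)
    rw [e.apply_symm_apply] at h1
    exact h1
  · have h1 := hqy j
    rw [eval_rename] at h1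
    exact h1

/-- `α ⊕ Option ι = Option (α ⊕ ι)` -/
def sumOption (α ι : Type) : α ⊕ Option ι ≃ Option (α ⊕ ι) where
  toFun := Sum.elim (fun a => some (Sum.inl a)) fun o => o.map Sum.inr
  invFun := fun o => o.elim (Sum.inr none) (Sum.elim Sum.inl fun i => Sum.inr (some i))
  left_inv := by rintro (a | _ | i) <;> rfl
  right_inv := by rintro (_ | a | i) <;> rfl

/-- Adding free variables raises the dimension by their number. -/
theorem dimGE_sum {α : Type} [Finite α] {J : Ideal (MvPolynomial α F)}
    (hJ : ∀ a : F, ∀ y ∈ zeroLocus F J, a • y ∈ zeroLocus F J) {d : ℕ}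
    (h : DimGE (zeroLocus F J) d) (ι : Type) [Finite ι] :
    DimGE {w : α ⊕ ι → F | (fun a => w (Sum.inl a)) ∈ zeroLocus F J} (d + Nat.card ι) := by
  refine Finite.induction_empty_option (P := fun ι : Type =>
    DimGE {w : α ⊕ ι → F | (fun a => w (Sum.inl a)) ∈ zeroLocus F J} (d + Nat.card ι)) ?_ ?_ ?_ ι
  · intro ι ι' e ih
    have h1 := dimGE_equiv (Equiv.sumCongr (Equiv.refl α) e).symm ih
    rw [Nat.card_congr e] at h1
    exact h1
  · have h1 := dimGE_equiv (Equiv.sumEmpty α PEmpty) h
    rw [Nat.card_eq_fintype_card, Fintype.card_eq_zero, add_zero]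
    exact h1
  · intro ι _ ih
    let J' : Ideal (MvPolynomial (α ⊕ ι) F) := J.map (rename Sum.inl : MvPolynomial α F →ₐ[F] _)
    have hJ' : ∀ w : α ⊕ ι → F, w ∈ zeroLocus F J' ↔ (fun a => w (Sum.inl a)) ∈ zeroLocus F J := by
      intro w
      rw [mem_zeroLocus_iff, mem_zeroLocus_iff]
      constructor
      · intro hw f hf
        have h1 := hw _ (Ideal.mem_map_of_mem _ hf)
        rw [aeval_rename] at h1
        exact h1
      · intro hw f hf
        have h1 : J' ≤ RingHom.ker (aeval w : MvPolynomial (α ⊕ ι) F →ₐ[F] F) := by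
          rw [Ideal.map_le_iff_le_comap]
          intro g hg
          rw [Ideal.mem_comap, RingHom.mem_ker, aeval_rename]
          exact hw g hg
        exact h1 hf
    have hset : {w : α ⊕ ι → F | (fun a => w (Sum.inl a)) ∈ zeroLocus F J} = zeroLocus F J' := by
      ext w
      rw [hJ' w]
      rfl
    rw [hset] at ih
    have h1 := dimGE_option (J := J') (fun a y hy => by
      rw [hJ'] at hy ⊢
      exact hJ a _ hy) ih
    have h2 := dimGE_equiv (sumOption α ι) h1
    rw [Finite.card_option, ← add_assoc]
    refine fun q hq => ?_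
    obtain ⟨y, hy, hy0, hqy⟩ := h2 q hq
    refine ⟨y, ?_, hy0, hqy⟩
    have h3 := (hJ' _).1 hy
    exact h3

end sum

end Pool.Agent.R388.TP
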