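import Pool.Agent.R388.TP.ProductMain
set_option autoImplicit false

/-!
# Preimages under the power maps
-/

open MvPolynomial Pool.Agent.Y129.TA Pool.Agent.Y129.TB

set_option linter.unusedSectionVars false

namespace Pool.Agent.R388.TP

/-- The preimage of `X` under `x ↦ (x_i ^ r)`. -/
def powPreimage {C ι : Type} [Field C] (r : ℕ) (X : Set (ι → C)) : Set (ι → C) :=
  {x | (fun i => x i ^ r) ∈ X}

section dim

variable {F : Type} [Field F] [IsAlgClosed F] {σ : Type} [Finite σ]

open Cardinal in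
/-- If a prime ideal contains the homogeneous ideal `I` and its quotient contains `d + 1`
algebraically independent elements, then the dimension is at least `d`. -/
theorem dimGE_of_algInd' {I P : Ideal (MvPolynomial σ F)} [P.IsPrime] (hIP : I ≤ P)
    (hI : ∀ f ∈ I, ∀ n, homogeneousComponent n f ∈ I) {d : ℕ}
    (z : Fin (d + 1) → MvPolynomial σ F ⧸ P) (hz : AlgebraicIndependent F z) :
    DimGE (zeroLocus F I) d := by
  intro q hq
  by_contra hno
  push Not at hno
  have h1 := integral_of_no_zero hI q hq (fun w hw hw2 => by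
    by_contra hw0
    obtain ⟨j, hj⟩ := hno w hw hw0
    exact hj (hw2 j))
  let x : Fin d → MvPolynomial σ F ⧸ P := fun j => Ideal.Quotient.mkₐ F P (q j)
  let θ : (MvPolynomial σ F ⧸ I) →ₐ[F] (MvPolynomial σ F ⧸ P) :=
    Ideal.Quotient.liftₐ I (Ideal.Quotient.mkₐ F P) fun a ha =>
      Ideal.Quotient.eq_zero_iff_mem.2 (hIP ha)
  have h2 : Algebra.IsIntegral (Algebra.adjoin F (Set.range x)) (MvPolynomial σ F ⧸ P) := by
    constructor
    intro a
    obtain ⟨f, rfl⟩ := Ideal.Quotient.mk_surjective a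
    obtain ⟨Q, hQ, hQa⟩ := h1 (Ideal.Quotient.mkₐ F I f)
    have hmem : ∀ r : MvPolynomial (Fin d) F, aeval x r ∈ Algebra.adjoin F (Set.range x) := by
      intro r
      rw [Algebra.adjoin_range_eq_range_aeval]
      exact ⟨r, rfl⟩
    let g : MvPolynomial (Fin d) F →+* Algebra.adjoin F (Set.range x) :=
      ((aeval x).codRestrict _ hmem).toRingHom
    refine ⟨Q.map g, hQ.map g, ?_⟩
    rw [Polynomial.eval₂_map]
    have h5 := congrArg θ hQa
    rw [map_zero, ← AlgHom.coe_toRingHom, Polynomial.hom_eval₂] at h5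
    have h7 : (algebraMap (Algebra.adjoin F (Set.range x)) (MvPolynomial σ F ⧸ P)).comp g =
        θ.toRingHom.comp (aeval fun j => Ideal.Quotient.mkₐ F I (q j)).toRingHom := by
      refine MvPolynomial.ringHom_ext (fun c => ?_) fun k => ?_
      · change (aeval x) (C c) = θ ((aeval fun j => Ideal.Quotient.mkₐ F I (q j)) (C c))
        rw [aeval_C, aeval_C, AlgHom.commutes]
      · change (aeval x) (X k) = θ ((aeval fun j => Ideal.Quotient.mkₐ F I (q j)) (X k))
        rw [aeval_X, aeval_X]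
        rfl
    rw [h7]
    exact h5
  have h3 : Algebra.IsAlgebraic (Algebra.adjoin F (Set.range x)) (MvPolynomial σ F ⧸ P) :=
    Algebra.IsIntegral.isAlgebraic
  have h4 : Algebra.trdeg F (MvPolynomial σ F ⧸ P) ≤ #(Set.range x) :=
    Algebra.IsAlgebraic.trdeg_le_cardinalMk F (Set.range x)
  have h5 := hz.cardinalMk_le_trdeg
  have h6 : #(Set.range x) ≤ #(Fin d) := Cardinal.mk_range_le
  have h7 := (h5.trans h4).trans h6
  rw [Cardinal.mk_fin, Cardinal.mk_fin, Nat.cast_le] at h7
  omega

/-- The polynomial `g(x^r)`. -/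
noncomputable def powP {k : Type} [Field k] {ι : Type} (r : ℕ) (g : MvPolynomial ι k) :
    MvPolynomial ι k := aeval (fun i => (X i : MvPolynomial ι k) ^ r) g

theorem aeval_powP {k L : Type} [Field k] [CommRing L] [Algebra k L] {ι : Type} (r : ℕ)
    (g : MvPolynomial ι k) (x : ι → L) : aeval x (powP r g) = aeval (fun i => x i ^ r) g := by
  rw [powP, ← AlgHom.comp_apply, comp_aeval]
  simp only [map_pow, aeval_X]

theorem powP_form {k : Type} [Field k] {ι : Type} {r : ℕ} (hr : 0 < r) {g : MvPolynomial ι k}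
    (hg : IsForm g) : IsForm (powP r g) := by
  obtain ⟨D, hD, h⟩ := hg
  exact ⟨r * D, Nat.mul_pos hr hD, h.aeval _ fun i => isHomogeneous_X_pow _ _⟩

/-- The dimension of the preimage under the power map. -/
theorem dimGE_pow {s : ℕ} {g : Fin s → MvPolynomial σ F} (hg : ∀ l, IsForm (g l)) {r : ℕ}
    (hr : 0 < r) {d : ℕ} (hd : DimGE {y : σ → F | ∀ l, eval y (g l) = 0} d) :
    DimGE {y : σ → F | ∀ l, eval y (powP r (g l)) = 0} d := by
  classical
  have := Fintype.ofFinite σ
  rw [← zeroLocus_span] at hd ⊢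
  obtain ⟨P, hP, hJ, z, hz⟩ := exists_algInd (fun a y hy => by
    rw [zeroLocus_span] at hy ⊢
    intro l
    obtain ⟨D, hD, h⟩ := hg l
    have h1 := eval_smul_of_homogeneous h a y
    rw [hy l, mul_zero] at h1
    exact h1) hd
  let L := AlgebraicClosure (FractionRing (MvPolynomial σ F ⧸ P))
  let ι₀ : (MvPolynomial σ F ⧸ P) →ₐ[F] L :=
    (IsScalarTower.toAlgHom F (FractionRing (MvPolynomial σ F ⧸ P)) L).comp
      (IsScalarTower.toAlgHom F (MvPolynomial σ F ⧸ P) (FractionRing (MvPolynomial σ F ⧸ P)))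
  have hι₀ : Function.Injective ι₀ := by
    have h1 : Function.Injective (algebraMap (FractionRing (MvPolynomial σ F ⧸ P)) L) :=
      RingHom.injective (algebraMap (FractionRing (MvPolynomial σ F ⧸ P)) L)
    have h2 : Function.Injective
        (algebraMap (MvPolynomial σ F ⧸ P) (FractionRing (MvPolynomial σ F ⧸ P))) :=
      IsFractionRing.injective _ _
    exact h1.comp h2
  have hroot : ∀ i : σ, ∃ s : L, s ^ r = ι₀ (Ideal.Quotient.mk P (X i)) := fun i =>
    IsAlgClosed.exists_pow_nat_eq _ hr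
  choose s hs using hroot
  let ψ : MvPolynomial σ F →ₐ[F] L := aeval s
  have hψ : ∀ f : MvPolynomial σ F, ψ (powP r f) = ι₀ (Ideal.Quotient.mk P f) := by
    intro f
    change aeval s (powP r f) = _
    rw [aeval_powP]
    have h1 : (aeval (fun i => s i ^ r) : MvPolynomial σ F →ₐ[F] L) =
        ι₀.comp (Ideal.Quotient.mkₐ F P) := by
      ext i
      rw [aeval_X, hs]
      rfl
    rw [h1]
    rfl
  have hprime : (RingHom.ker ψ).IsPrime := RingHom.ker_isPrime _
  choose u hu using fun j => Ideal.Quotient.mk_surjective (z j)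
  have hform : ∀ l, IsForm (powP r (g l)) := fun l => powP_form hr (hg l)
  choose Dg hDg hDg' using hform
  refine dimGE_of_algInd' (P := RingHom.ker ψ) ?_ (fun f hf n =>
    homogeneousComponent_mem_of_mem (Pool.Agent.Y129.TA.span_isHomogeneous _ Dg hDg') hf n)
    (fun j => Ideal.Quotient.mk (RingHom.ker ψ) (powP r (u j))) ?_
  · refine Ideal.span_le.2 ?_
    rintro _ ⟨l, rfl⟩
    change ψ (powP r (g l)) = 0
    rw [hψ]
    have h1 : Ideal.Quotient.mk P (g l) = 0 :=
      Ideal.Quotient.eq_zero_iff_mem.2 (hJ (Ideal.subset_span ⟨l, rfl⟩))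
    rw [h1, map_zero]
  · have h1 : AlgebraicIndependent F (ι₀ ∘ z) := hz.map' hι₀
    have h2 : ι₀ ∘ z = (Ideal.kerLiftAlg ψ) ∘ fun j =>
        Ideal.Quotient.mk (RingHom.ker ψ) (powP r (u j)) := by
      funext j
      change ι₀ (z j) = ψ (powP r (u j))
      rw [hψ, hu]
    rw [h2] at h1
    exact h1.of_comp _

end dim

section dim'

variable {k L : Type} [Field k] [Field L] [Algebra k L] {ι : Type} [Finite ι] {s : ℕ}

theorem pow_eq {g : Fin s → MvPolynomial ι k} (r : ℕ) :
    powPreimage r {y : ι → L | ∀ l, aeval y (g l) = 0} =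
      {y : ι → L | ∀ l, aeval y (powP r (g l)) = 0} := by
  ext y
  simp only [powPreimage, Set.mem_ofPred_eq, aeval_powP]

theorem dimGE_pow' [IsAlgClosed L] {g : Fin s → MvPolynomial ι k} (hg : ∀ l, IsForm (g l)) {r : ℕ}
    (hr : 0 < r) {d : ℕ} (hd : DimGE {y : ι → L | ∀ l, aeval y (g l) = 0} d) :
    DimGE (powPreimage r {y : ι → L | ∀ l, aeval y (g l) = 0}) d := by
  have e : {y : ι → L | ∀ l, aeval y (g l) = 0} =
      {y : ι → L | ∀ l, aeval y (MvPolynomial.map (algebraMap k L) (g l)) = 0} := by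
    ext y
    simp only [Set.mem_ofPred_eq, aeval_map_algebraMap]
  have e' : ∀ (g : Fin s → MvPolynomial ι L),
      {y : ι → L | ∀ l, aeval y (g l) = 0} = {y : ι → L | ∀ l, eval y (g l) = 0} := by
    intro g
    ext y
    simp only [Set.mem_ofPred_eq, aeval_eq_eval]
  rw [e, e' fun l => MvPolynomial.map (algebraMap k L) (g l)] at hd
  rw [e, pow_eq, e' fun l => powP r (MvPolynomial.map (algebraMap k L) (g l))]
  exact dimGE_pow (fun l => form_map (hg l)) hr hd

theorem dimLE_pow {Y : Set (ι → L)} {d r : ℕ} (hr : 0 < r) (h : DimLE Y d) :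
    DimLE (powPreimage r Y) d := by
  obtain ⟨q, hq, h0⟩ := h
  refine ⟨fun j => powP r (q j), fun j => powP_form hr (hq j), fun y hy hy2 => ?_⟩
  have h1 := h0 (fun i => y i ^ r) hy fun j => by
    have h2 := hy2 j
    rw [← aeval_eq_eval, ← aeval_powP, aeval_eq_eval]
    exact h2
  funext i
  exact eq_zero_of_pow_eq_zero (congrFun h1 i)

end dim'

variable {p : ℕ} [hp : Fact p.Prime] {C F K E : Type} [Field C] [Field F] [CharP F p] [Field K]
  [Field E] [Algebra K C] [Algebra E F] {ι : Type} [Fintype ι]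

theorem approximable_pow [IsAlgClosed C] [IsAlgClosed F] [Nonempty ι]
    (T : Tilting p C F) {X : Set (ι → C)} {d r : ℕ} (hr : 0 < r)
    (h : IsConeOver K X) (ha : Approximable T.toTiltPair K E X d) :
    IsConeOver K (powPreimage r X) ∧ DimGE (powPreimage r X) d ∧
      Approximable T.toTiltPair K E (powPreimage r X) d := by
  classical
  haveI : Infinite C := IsAlgClosed.instInfinite
  haveI : Infinite F := IsAlgClosed.instInfinite
  obtain ⟨s, g, hg, hX⟩ := exists_gens h (nonempty_of_approximable T.toTiltPair ha)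
  have hd := dimGE_of_small T (small_of_approximable T.toTiltPair g hg hX ha)
  refine ⟨?_, ?_, ?_⟩
  · rw [hX, pow_eq]
    exact cone_of_forms fun l => powP_form hr (hg l)
  · rw [hX]
    exact dimGE_pow' hg hr hd
  intro N P DP hPD hPX ε hε
  let G : Fin s → MvPolynomial ι C := fun l => MvPolynomial.map (algebraMap K C) (powP r (g l))
  let P' : Fin N → MvPolynomial ι C := fun k => MvPolynomial.map (algebraMap K C) (P k)
  have hG : ∀ (v : ι → C) l, eval v (G l) = aeval (fun i => v i ^ r) (g l) := by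
    intro v l
    rw [← aeval_powP]
    exact eval_map_alg _ _
  have hs : ∀ k : Fin N, ∃ δ : ℝ, 0 < δ ∧ ∀ v : ι → C, (∀ i, T.absK (v i) ≤ 1) →
      (∀ l, T.absK (eval v (G l)) ≤ δ) → T.absK (eval v (P' k)) ≤ ε := by
    intro k
    refine small T.ultraK _ _ (fun v hv => ?_) hε
    have h1 : eval v (P' k) = aeval v (P k) := eval_map_alg _ _
    rw [h1]
    refine hPX k _ ?_
    change (fun i => v i ^ r) ∈ X
    rw [hX]
    intro l
    rw [← hG]
    exact hv l
  choose δ₀ hδ₀ hs' using hs
  obtain ⟨δ, hδ, hδ'⟩ := exists_pos_le δ₀ hδ₀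
  choose D hD hgD using hg
  obtain ⟨Y, hY, hYd, hYd', hYt⟩ := ha s g D hgD (fun k x hx => by rw [hX] at hx; exact hx k) δ hδ
  obtain ⟨s', G', hG'f, hYG⟩ := exists_gens hY (dimGE_nonempty hYd)
  refine ⟨powPreimage r Y, ?_, ?_, dimLE_pow hr hYd', ?_⟩
  · rw [hYG, pow_eq]
    exact cone_of_forms fun l => powP_form hr (hG'f l)
  · rw [hYG] at hYd ⊢
    exact dimGE_pow' hG'f hr hYd
  intro x hx k B hB
  have hB0 : 0 ≤ B := (T.absF.nonneg _).trans (hB (Classical.arbitrary _))
  by_cases h0 : x = 0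
  · have h3 : (fun t => T.sharp (x t)) = (0 : ι → C) := by
      funext t
      rw [h0]
      exact T.sharp_zero
    have h4 : aeval (0 : ι → C) (P k) = 0 := by
      refine hPX k 0 ?_
      change (fun i => (0 : ι → C) i ^ r) ∈ X
      have h5 : (fun i => (0 : ι → C) i ^ r) = 0 := by
        funext i
        exact zero_pow hr.ne'
      rw [h5, hX]
      exact fun l => aeval_zero_form ⟨D l, hD l, hgD l⟩
    rw [h3, h4, map_zero]
    positivity
  obtain ⟨a, ha', ha1, i₀, hi₀⟩ := exists_normal T.toTiltPair h0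
  have h3 := hs' k (fun i => T.sharp (a * x i)) (fun i => by rw [T.abs_sharp]; exact ha1 i) (by
    intro l
    rw [hG]
    have h5 : (a ^ r • fun i => x i ^ r) ∈ Y := hY.2 (a ^ r) _ hx
    have h6 : (a ^ r • fun i => x i ^ r) = fun i => (a * x i) ^ r := by
      funext i
      rw [Pi.smul_apply, smul_eq_mul, mul_pow]
    rw [h6] at h5
    have h4 := hYt _ h5 l 1 (fun i => by
      rw [map_pow]
      exact pow_le_one₀ (T.absF.nonneg _) (ha1 i))
    rw [one_pow, mul_one] at h4
    have h7 : (fun i => T.sharp ((a * x i) ^ r)) = fun i => T.sharp (a * x i) ^ r :=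
      funext fun i => map_pow _ _ _
    rw [h7] at h4
    exact h4.trans (hδ' k))
  have h4 : eval (fun i => T.sharp (a * x i)) (P' k) = aeval (fun i => T.sharp (a * x i)) (P k) :=
    eval_map_alg _ _
  have h5 : (fun i => T.sharp (a * x i)) = fun i => T.sharp a * T.sharp (x i) :=
    funext fun i => map_mul _ _ _
  rw [h4, h5, aeval_smul_fin (hPD k), map_mul, map_pow, T.abs_sharp] at h3
  have hA : 0 < T.absF a := T.absF.pos ha'
  have h6 : 1 ≤ T.absF a * B := by
    rw [← hi₀, map_mul]
    exact mul_le_mul_of_nonneg_left (hB _) hA.le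
  have h7 : T.absF a ^ DP k * T.absK (aeval (fun t => T.sharp (x t)) (P k)) ≤
      T.absF a ^ DP k * (ε * B ^ DP k) := by
    refine h3.trans ?_
    calc ε = ε * 1 ^ DP k := by rw [one_pow, mul_one]
      _ ≤ ε * (T.absF a * B) ^ DP k :=
          mul_le_mul_of_nonneg_left (pow_le_pow_left₀ zero_le_one h6 _) hε.le
      _ = T.absF a ^ DP k * (ε * B ^ DP k) := by rw [mul_pow]; ring
  exact le_of_mul_le_mul_left h7 (pow_pos hA _)

theorem kummer_main [IsAlgClosed C] [IsAlgClosed F] (T : Tilting p C F) (B : BaseField T K E)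
    {n d r : ℕ} (hr : 0 < r) {X : Set (Fin (n + 1) → C)}
    (hX : IsToricUnion K X d ∨ IsConeOver K X ∧ Approximable T.toTiltPair K E X d) :
    IsConeOver K (powPreimage r X) ∧ DimGE (powPreimage r X) d ∧
      Approximable T.toTiltPair K E (powPreimage r X) d := by
  obtain ⟨h1, h2⟩ := q1_of_toricUnion T B hX
  exact approximable_pow T hr h1 h2

end Pool.Agent.R388.TP
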