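import Pool.Agent.R388.TP.Toric
set_option autoImplicit false

/-!
# Stability of approximation: the main theorem
-/

open MvPolynomial Pool.Agent.Y129.TA Pool.Agent.Y129.TB

set_option linter.unusedSectionVars false

namespace Pool.Agent.R388.TP

/-- The image `f(Z ∩ V(h))`. -/
def sectionImage {C K : Type} [Field C] [Field K] [Algebra K C] {α ι κ : Type} (Z : Set (α → C))
    (h : κ → MvPolynomial α K) (f : ι → MvPolynomial α K) : Set (ι → C) :=
  {x | ∃ z ∈ Z, (∀ j, aeval z (h j) = 0) ∧ ∀ i, x i = aeval z (f i)}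

/-- `Z` is the cone over a projective toric variety of dimension at least `d`. -/
def IsToric {C : Type} [Field C] {m : ℕ} (Z : Set (Fin (m + 1) → C)) (d : ℕ) : Prop :=
  ∃ (s D : ℕ) (A : Fin (m + 1) → Fin s → ℕ) (k : Fin (d + 1) → Fin (m + 1)), 0 < D ∧
    (∀ i, ∑ l, A i l = D) ∧ (LinearIndependent ℚ fun j l => (A (k j) l : ℚ)) ∧ Z = toricCone C A

variable {p : ℕ} [hp : Fact p.Prime] {C F K E : Type} [Field C] [Field F] [CharP F p] [Field K]
  [Field E] [Algebra K C] [Algebra E F]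

theorem nonempty_of_approximable {α : Type} (T : TiltPair p C F) {Z : Set (α → C)} {d : ℕ}
    (h : Approximable T K E Z d) [Finite α] : Z.Nonempty := by
  by_contra hno
  rw [Set.not_nonempty_iff_eq_empty] at hno
  obtain ⟨Y, -, hY2, -, hY3⟩ := h 1 (fun _ => 1) (fun _ => 0) (fun _ => isHomogeneous_one _ _)
    (fun k x hx => by rw [hno] at hx; exact hx.elim) (1 / 2) (by norm_num)
  obtain ⟨y, hy⟩ := dimGE_nonempty hY2
  obtain ⟨B, hB⟩ : ∃ B : ℝ, ∀ i, T.absF (y i) ≤ B := by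
    obtain ⟨B, hB⟩ := (Set.finite_range fun i => T.absF (y i)).bddAbove
    exact ⟨B, fun i => hB ⟨i, rfl⟩⟩
  have h1 := hY3 y hy 0 B hB
  rw [map_one, map_one, pow_zero] at h1
  norm_num at h1

theorem exists_small [IsAlgClosed C] [IsAlgClosed F] (T : Tilting p C F) {m d : ℕ}
    {Z : Set (Fin (m + 1) → C)}
    (hZ : IsToric Z d ∨ IsConeOver K Z ∧ Approximable T.toTiltPair K E Z d) :
    ∃ (r0 : ℕ) (g0 : Fin r0 → MvPolynomial (Fin (m + 1)) K), (∀ l, IsForm (g0 l)) ∧
      Z = {z | ∀ l, aeval z (g0 l) = 0} ∧ Small T.toTiltPair E g0 d := by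
  haveI : Infinite C := IsAlgClosed.instInfinite
  rcases hZ with ⟨s, D, A, k, hD, hA, hk, rfl⟩ | ⟨h1, h2⟩
  · obtain ⟨r, g, hg, hZg⟩ := exists_gens (toricCone_cone (k := K) (L := C) hD hA)
      (dimGE_nonempty (dimGE_toric C hD hA k hk))
    exact ⟨r, g, hg, hZg, small_of_toric T.toTiltPair hD hA k hk g hZg⟩
  · obtain ⟨r, g, hg, hZg⟩ := exists_gens h1 (nonempty_of_approximable T.toTiltPair h2)
    exact ⟨r, g, hg, hZg, small_of_approximable T.toTiltPair g hg hZg h2⟩

theorem main [IsAlgClosed C] [IsAlgClosed F] (T : Tilting p C F)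
    (B : BaseField T K E) {N n d : ℕ} (hN : 0 < N) {c m e : Fin N → ℕ}
    (Z : ∀ i, Set (Fin (m i + 1) → C))
    (hZ : ∀ i, IsToric (Z i) (d + c i) ∨
      IsConeOver K (Z i) ∧ Approximable T.toTiltPair K E (Z i) (d + c i))
    (h : ∀ i, Fin (c i) → MvPolynomial (Fin (m i + 1)) K) (hh : ∀ i j, IsForm (h i j))
    (f : ∀ i, Fin (n + 1) → MvPolynomial (Fin (m i + 1)) K) (he : ∀ i, 0 < e i)
    (hf : ∀ i j, (f i j).IsHomogeneous (e i))
    (h0 : ∀ i, ∀ z ∈ Z i, (∀ j, aeval z (h i j) = 0) → (∀ j, aeval z (f i j) = 0) → z = 0)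
    (hX : DimLEOver K (⋃ i, sectionImage (Z i) (h i) (f i)) d) :
    IsConeOver K (⋃ i, sectionImage (Z i) (h i) (f i)) ∧
      DimGE (⋃ i, sectionImage (Z i) (h i) (f i)) d ∧
      Approximable T.toTiltPair K E (⋃ i, sectionImage (Z i) (h i) (f i)) d := by
  choose r0 g0 hg0 hZg hs using fun i => exists_small (K := K) (E := E) T (hZ i)
  have hXi : ∀ i, sectionImage (Z i) (h i) (f i) = imageOver C (Sum.elim (h i) (g0 i)) (f i) := by
    intro i
    ext x
    constructor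
    · rintro ⟨z, hz, h1, h2⟩
      refine ⟨z, ?_, h2⟩
      rintro (j | l)
      · exact h1 j
      · rw [hZg i] at hz
        exact hz l
    · rintro ⟨z, h1, h2⟩
      refine ⟨z, ?_, fun j => h1 (Sum.inl j), h2⟩
      rw [hZg i]
      exact fun l => h1 (Sum.inr l)
  have h0' : ∀ i, NoCommonZero C (Sum.elim (h i) (g0 i)) (f i) := by
    intro i z h1 h2
    refine h0 i z ?_ (fun j => h1 (Sum.inl j)) h2
    rw [hZg i]
    exact fun l => h1 (Sum.inr l)
  have hform : ∀ i k, IsForm (Sum.elim (h i) (g0 i) k) := by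
    rintro i (j | l)
    · exact hh i j
    · exact hg0 i l
  simp only [hXi] at hX ⊢
  refine ⟨cone_iUnion _ fun i => imageOver_cone (hform i) (hf i) (he i) (h0' i),
    dimGE_iUnion ⟨0, hN⟩ _ ?_, approximable_union T B hN h hh g0 hg0 hs f he hf h0' hX⟩
  exact dimGE_imageOver (hh _) (hf _) (he _) (h0' _) (by rw [Fintype.card_fin]; omega)
    (dimGE_of_small T (hs _))

end Pool.Agent.R388.TP
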