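import Pool.Agent.R388.TP.SegreTop
import Pool.Agent.R388.TP.Main
set_option autoImplicit false

/-!
# Q1 for products
-/

open MvPolynomial Pool.Agent.Y129.TA Pool.Agent.Y129.TB

set_option linter.unusedSectionVars false

namespace Pool.Agent.R388.TP

section dim

variable {k L : Type} [Field k] [Field L] [IsAlgClosed L] [Algebra k L] {ι₁ ι₂ : Type}
  [Finite ι₁] [Finite ι₂] {r₁ r₂ : ℕ}

theorem dimGE_segre' {g₁ : Fin r₁ → MvPolynomial ι₁ k} {g₂ : Fin r₂ → MvPolynomial ι₂ k}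
    (h₁ : ∀ l, IsForm (g₁ l)) (h₂ : ∀ l, IsForm (g₂ l)) {d₁ d₂ : ℕ}
    (hd₁ : DimGE {y : ι₁ → L | ∀ l, aeval y (g₁ l) = 0} d₁)
    (hd₂ : DimGE {z : ι₂ → L | ∀ l, aeval z (g₂ l) = 0} d₂) :
    DimGE (segre {y : ι₁ → L | ∀ l, aeval y (g₁ l) = 0} {z : ι₂ → L | ∀ l, aeval z (g₂ l) = 0})
      (d₁ + d₂) := by
  have e : ∀ {ι : Type} {r : ℕ} (g : Fin r → MvPolynomial ι k),
      {y : ι → L | ∀ l, aeval y (g l) = 0} =
        {y : ι → L | ∀ l, aeval y (MvPolynomial.map (algebraMap k L) (g l)) = 0} := by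
    intro ι r g
    ext y
    simp only [Set.mem_ofPred_eq, aeval_map_algebraMap]
  have e' : ∀ {ι κ : Type} (g : κ → MvPolynomial ι L),
      {y : ι → L | ∀ l, aeval y (g l) = 0} = {y : ι → L | ∀ l, eval y (g l) = 0} := by
    intro ι κ g
    ext y
    simp only [Set.mem_ofPred_eq, aeval_eq_eval]
  have f₁ : ∀ l, IsForm (MvPolynomial.map (algebraMap k L) (g₁ l)) := fun l => form_map (h₁ l)
  have f₂ : ∀ l, IsForm (MvPolynomial.map (algebraMap k L) (g₂ l)) := fun l => form_map (h₂ l)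
  rw [e g₁, e' fun l => MvPolynomial.map (algebraMap k L) (g₁ l)] at hd₁
  rw [e g₂, e' fun l => MvPolynomial.map (algebraMap k L) (g₂ l)] at hd₂
  rw [e g₁, e g₂, segre_eq f₁ f₂, e']
  exact dimGE_segre f₁ f₂ hd₁ hd₂

end dim

variable {p : ℕ} [hp : Fact p.Prime] {C F K E : Type} [Field C] [Field F] [CharP F p] [Field K]
  [Field E] [Algebra K C] [Algebra E F] {ι₁ ι₂ : Type} [Fintype ι₁] [Fintype ι₂]

theorem approximable_segre [IsAlgClosed C] [IsAlgClosed F] [Nonempty ι₁] [Nonempty ι₂]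
    (T : Tilting p C F) {X₁ : Set (ι₁ → C)} {X₂ : Set (ι₂ → C)} {d₁ d₂ : ℕ}
    (h₁ : IsConeOver K X₁) (h₂ : IsConeOver K X₂)
    (ha₁ : Approximable T.toTiltPair K E X₁ d₁) (ha₂ : Approximable T.toTiltPair K E X₂ d₂) :
    IsConeOver K (segre X₁ X₂) ∧ DimGE (segre X₁ X₂) (d₁ + d₂) ∧
      Approximable T.toTiltPair K E (segre X₁ X₂) (d₁ + d₂) := by
  classical
  haveI : Infinite C := IsAlgClosed.instInfinite
  haveI : Infinite F := IsAlgClosed.instInfinite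
  obtain ⟨r₁, g₁, hg₁, hX₁⟩ := exists_gens h₁ (nonempty_of_approximable T.toTiltPair ha₁)
  obtain ⟨r₂, g₂, hg₂, hX₂⟩ := exists_gens h₂ (nonempty_of_approximable T.toTiltPair ha₂)
  have hd₁ := dimGE_of_small T (small_of_approximable T.toTiltPair g₁ hg₁ hX₁ ha₁)
  have hd₂ := dimGE_of_small T (small_of_approximable T.toTiltPair g₂ hg₂ hX₂ ha₂)
  refine ⟨?_, ?_, ?_⟩
  · rw [hX₁, hX₂, segre_eq hg₁ hg₂]
    exact cone_of_forms (segreEqs_form hg₁ hg₂)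
  · rw [hX₁, hX₂]
    exact dimGE_segre' hg₁ hg₂ hd₁ hd₂
  intro r P DP hPD hPX ε hε
  -- the equations in the two groups of variables
  let G : Fin r₁ ⊕ Fin r₂ → MvPolynomial (ι₁ ⊕ ι₂) C :=
    Sum.elim (fun l => rename Sum.inl (MvPolynomial.map (algebraMap K C) (g₁ l)))
      (fun l => rename Sum.inr (MvPolynomial.map (algebraMap K C) (g₂ l)))
  let P' : Fin r → MvPolynomial (ι₁ ⊕ ι₂) C := fun k =>
    aeval (fun t : ι₁ × ι₂ => (X (Sum.inl t.1) * X (Sum.inr t.2) : MvPolynomial (ι₁ ⊕ ι₂) C)) (P k)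
  have hG₁ : ∀ (v : ι₁ ⊕ ι₂ → C) l, eval v (G (Sum.inl l)) = aeval (fun i => v (Sum.inl i)) (g₁ l) := by
    intro v l
    simp only [G, Sum.elim_inl, eval_rename]
    exact eval_map_alg _ _
  have hG₂ : ∀ (v : ι₁ ⊕ ι₂ → C) l, eval v (G (Sum.inr l)) = aeval (fun i => v (Sum.inr i)) (g₂ l) := by
    intro v l
    simp only [G, Sum.elim_inr, eval_rename]
    exact eval_map_alg _ _
  have hP' : ∀ (v : ι₁ ⊕ ι₂ → C) k,
      eval v (P' k) = aeval (fun t : ι₁ × ι₂ => v (Sum.inl t.1) * v (Sum.inr t.2)) (P k) := by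
    intro v k
    have h3 : ((aeval v : MvPolynomial (ι₁ ⊕ ι₂) C →ₐ[C] C).restrictScalars K).comp
        (aeval (fun t : ι₁ × ι₂ => (X (Sum.inl t.1) * X (Sum.inr t.2) :
          MvPolynomial (ι₁ ⊕ ι₂) C))) =
        (aeval (fun t : ι₁ × ι₂ => v (Sum.inl t.1) * v (Sum.inr t.2)) :
          MvPolynomial (ι₁ × ι₂) K →ₐ[K] C) := by
      ext t
      simp
    have h4 := congrArg (fun ψ : MvPolynomial (ι₁ × ι₂) K →ₐ[K] C => ψ (P k)) h3
    rw [← aeval_eq_eval]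
    exact h4
  have s : ∀ k : Fin r, ∃ δ : ℝ, 0 < δ ∧ ∀ v : ι₁ ⊕ ι₂ → C, (∀ i, T.absK (v i) ≤ 1) →
      (∀ l, T.absK (eval v (G l)) ≤ δ) → T.absK (eval v (P' k)) ≤ ε := by
    intro k
    refine small T.ultraK _ _ (fun v hv => ?_) hε
    rw [hP']
    refine hPX k _ ⟨fun i => v (Sum.inl i), ?_, fun j => v (Sum.inr j), ?_, fun i j => rfl⟩
    · rw [hX₁]
      intro l
      rw [← hG₁]
      exact hv _
    · rw [hX₂]
      intro l
      rw [← hG₂]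
      exact hv _
  choose δ₀ hδ₀ hs using s
  obtain ⟨δ, hδ, hδ'⟩ := exists_pos_le δ₀ hδ₀
  choose D₁ hD₁ hgD₁ using hg₁
  choose D₂ hD₂ hgD₂ using hg₂
  obtain ⟨Y₁, hY₁, hY₁d, hY₁d', hY₁t⟩ := ha₁ r₁ g₁ D₁ hgD₁
    (fun k x hx => by rw [hX₁] at hx; exact hx k) δ hδ
  obtain ⟨Y₂, hY₂, hY₂d, hY₂d', hY₂t⟩ := ha₂ r₂ g₂ D₂ hgD₂
    (fun k x hx => by rw [hX₂] at hx; exact hx k) δ hδ
  obtain ⟨s₁, G₁, hG₁f, hYG₁⟩ := exists_gens hY₁ (dimGE_nonempty hY₁d)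
  obtain ⟨s₂, G₂, hG₂f, hYG₂⟩ := exists_gens hY₂ (dimGE_nonempty hY₂d)
  refine ⟨segre Y₁ Y₂, ?_, ?_, dimLE_segre hY₁d' hY₂d', ?_⟩
  · rw [hYG₁, hYG₂, segre_eq hG₁f hG₂f]
    exact cone_of_forms (segreEqs_form hG₁f hG₂f)
  · rw [hYG₁] at hY₁d ⊢
    rw [hYG₂] at hY₂d ⊢
    exact dimGE_segre' hG₁f hG₂f hY₁d hY₂d
  rintro x ⟨y, hy, z, hz, hx⟩ k B hB
  have hB0 : 0 ≤ B := (T.absF.nonneg _).trans (hB (Classical.arbitrary _))
  by_cases h0 : x = 0
  · have h3 : (fun t => T.sharp (x t)) = (0 : ι₁ × ι₂ → C) := by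
      funext t
      rw [h0]
      exact T.sharp_zero
    have h4 : aeval (0 : ι₁ × ι₂ → C) (P k) = 0 := by
      refine hPX k 0 ⟨0, ?_, 0, ?_, fun i j => by simp⟩
      · rw [hX₁]
        exact fun l => aeval_zero_form ⟨D₁ l, hD₁ l, hgD₁ l⟩
      · rw [hX₂]
        exact fun l => aeval_zero_form ⟨D₂ l, hD₂ l, hgD₂ l⟩
    rw [h3, h4, map_zero]
    positivity
  have hy0 : y ≠ 0 := by
    rintro rfl
    exact h0 (funext fun t => by rw [hx t.1 t.2]; simp)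
  have hz0 : z ≠ 0 := by
    rintro rfl
    exact h0 (funext fun t => by rw [hx t.1 t.2]; simp)
  obtain ⟨a, ha, ha1, i₀, hi₀⟩ := exists_normal T.toTiltPair hy0
  obtain ⟨b, hb, hb1, j₀, hj₀⟩ := exists_normal T.toTiltPair hz0
  have h3 := hs k (Sum.elim (fun i => T.sharp (a * y i)) (fun j => T.sharp (b * z j))) (by
    rintro (i | j)
    · rw [Sum.elim_inl, T.abs_sharp]
      exact ha1 i
    · rw [Sum.elim_inr, T.abs_sharp]
      exact hb1 j) (by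
    rintro (l | l)
    · rw [hG₁]
      have h4 := hY₁t (a • y) (hY₁.2 a y hy) l 1 ha1
      rw [one_pow, mul_one] at h4
      exact h4.trans (hδ' k)
    · rw [hG₂]
      have h4 := hY₂t (b • z) (hY₂.2 b z hz) l 1 hb1
      rw [one_pow, mul_one] at h4
      exact h4.trans (hδ' k))
  rw [hP'] at h3
  have h5 : (fun t : ι₁ × ι₂ => Sum.elim (fun i => T.sharp (a * y i)) (fun j => T.sharp (b * z j))
      (Sum.inl t.1) * Sum.elim (fun i => T.sharp (a * y i)) (fun j => T.sharp (b * z j))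
      (Sum.inr t.2)) = fun t => T.sharp (a * b) * T.sharp (x t) := by
    funext t
    rw [Sum.elim_inl, Sum.elim_inr, ← map_mul, ← map_mul, hx t.1 t.2]
    congr 1
    ring
  rw [h5, aeval_smul_fin (hPD k), map_mul, map_pow, T.abs_sharp] at h3
  have hA : 0 < T.absF (a * b) := T.absF.pos (mul_ne_zero ha hb)
  have h6 : 1 ≤ T.absF (a * b) * B := by
    have h7 : T.absF (a * b) * T.absF (x (i₀, j₀)) = 1 := by
      rw [hx, ← map_mul]
      have h8 : a * b * (y i₀ * z j₀) = (a * y i₀) * (b * z j₀) := by ring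
      rw [h8, map_mul, hi₀, hj₀, mul_one]
    rw [← h7]
    exact mul_le_mul_of_nonneg_left (hB _) hA.le
  have h7 : T.absF (a * b) ^ DP k * T.absK (aeval (fun t => T.sharp (x t)) (P k)) ≤
      T.absF (a * b) ^ DP k * (ε * B ^ DP k) := by
    refine h3.trans ?_
    calc ε = ε * 1 ^ DP k := by rw [one_pow, mul_one]
      _ ≤ ε * (T.absF (a * b) * B) ^ DP k :=
          mul_le_mul_of_nonneg_left (pow_le_pow_left₀ zero_le_one h6 _) hε.le
      _ = T.absF (a * b) ^ DP k * (ε * B ^ DP k) := by rw [mul_pow]; ring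
  exact le_of_mul_le_mul_left h7 (pow_pos hA _)

end Pool.Agent.R388.TP
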