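import Pool.Agent.R388.TP.Product
set_option autoImplicit false

/-!
# Q1 for products: the main theorem
-/

open MvPolynomial Pool.Agent.Y129.TA Pool.Agent.Y129.TB

set_option linter.unusedSectionVars false

namespace Pool.Agent.R388.TP

/-- `X` is a closed subset of dimension at most `d` which is a finite union of images of complete
intersections of dimension at least `d` in toric varieties: `X = ⋃ f_i(Z_i ∩ V(h_i))`, where `Z_i` is
toric of dimension at least `d + c_i`, `h_i` consists of `c_i` forms over `K`, and `f_i` of forms over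
`K` of the same degree `e_i > 0` without common zeros on `Z_i ∩ V(h_i)`. -/
def IsToricUnion (K : Type) [Field K] {C : Type} [Field C] [Algebra K C] {n : ℕ}
    (X : Set (Fin (n + 1) → C)) (d : ℕ) : Prop :=
  ∃ (N : ℕ) (c m e : Fin N → ℕ) (Z : ∀ i, Set (Fin (m i + 1) → C))
    (h : ∀ i, Fin (c i) → MvPolynomial (Fin (m i + 1)) K)
    (f : ∀ i, Fin (n + 1) → MvPolynomial (Fin (m i + 1)) K),
    0 < N ∧ (∀ i, IsToric (Z i) (d + c i)) ∧ (∀ i j, IsForm (h i j)) ∧ (∀ i, 0 < e i) ∧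
    (∀ i j, (f i j).IsHomogeneous (e i)) ∧
    (∀ i, ∀ z ∈ Z i, (∀ j, aeval z (h i j) = 0) → (∀ j, aeval z (f i j) = 0) → z = 0) ∧
    X = (⋃ i, sectionImage (Z i) (h i) (f i)) ∧ DimLEOver K X d

variable {p : ℕ} [hp : Fact p.Prime] {C F K E : Type} [Field C] [Field F] [CharP F p] [Field K]
  [Field E] [Algebra K C] [Algebra E F] [IsAlgClosed C] [IsAlgClosed F]

theorem q1_of_toricUnion (T : Tilting p C F) (B : BaseField T K E) {n d : ℕ}
    {X : Set (Fin (n + 1) → C)}
    (hX : IsToricUnion K X d ∨ IsConeOver K X ∧ Approximable T.toTiltPair K E X d) :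
    IsConeOver K X ∧ Approximable T.toTiltPair K E X d := by
  rcases hX with ⟨N, c, m, e, Z, h, f, hN, hZ, hh, he, hf, h0, rfl, hX⟩ | hX
  · have h1 := main T B hN Z (fun i => Or.inl (hZ i)) h hh f he hf h0 hX
    exact ⟨h1.1, h1.2.2⟩
  · exact hX

theorem product_main (T : Tilting p C F) (B : BaseField T K E) {n₁ n₂ d₁ d₂ : ℕ}
    {X₁ : Set (Fin (n₁ + 1) → C)} {X₂ : Set (Fin (n₂ + 1) → C)}
    (h₁ : IsToricUnion K X₁ d₁ ∨ IsConeOver K X₁ ∧ Approximable T.toTiltPair K E X₁ d₁)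
    (h₂ : IsToricUnion K X₂ d₂ ∨ IsConeOver K X₂ ∧ Approximable T.toTiltPair K E X₂ d₂) :
    IsConeOver K (segre X₁ X₂) ∧ DimGE (segre X₁ X₂) (d₁ + d₂) ∧
      Approximable T.toTiltPair K E (segre X₁ X₂) (d₁ + d₂) := by
  obtain ⟨h3, h4⟩ := q1_of_toricUnion T B h₁
  obtain ⟨h5, h6⟩ := q1_of_toricUnion T B h₂
  exact approximable_segre T h3 h5 h4 h6

end Pool.Agent.R388.TP
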