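import Pool.Agent.R388.TP.Indep
set_option autoImplicit false

/-!
# Products: equations and dimension
-/

open MvPolynomial Pool.Agent.Y129.TA Pool.Agent.Y129.TB
open scoped TensorProduct

namespace Pool.Agent.R388.TP

/-- The cone over the product of two closed subsets in the Segre embedding. -/
def segre {C : Type} [Field C] {ι₁ ι₂ : Type} (Z₁ : Set (ι₁ → C)) (Z₂ : Set (ι₂ → C)) :
    Set (ι₁ × ι₂ → C) :=
  {x | ∃ y ∈ Z₁, ∃ z ∈ Z₂, ∀ i j, x (i, j) = y i * z j}

section eqs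

variable {K L : Type} [Field K] [Field L] [Algebra K L] {ι₁ ι₂ : Type} {r₁ r₂ : ℕ}

/-- The equations of the product. -/
noncomputable def segreEqs (g₁ : Fin r₁ → MvPolynomial ι₁ K) (g₂ : Fin r₂ → MvPolynomial ι₂ K) :
    ((ι₁ × ι₂) × (ι₁ × ι₂)) ⊕ ((ι₂ × Fin r₁) ⊕ (ι₁ × Fin r₂)) → MvPolynomial (ι₁ × ι₂) K :=
  Sum.elim (fun a => X a.1 * X a.2 - X (a.1.1, a.2.2) * X (a.2.1, a.1.2))
    (Sum.elim (fun a => rename (fun i => (i, a.1)) (g₁ a.2))
      (fun a => rename (fun j => (a.1, j)) (g₂ a.2)))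

theorem segreEqs_form {g₁ : Fin r₁ → MvPolynomial ι₁ K} {g₂ : Fin r₂ → MvPolynomial ι₂ K}
    (h₁ : ∀ l, IsForm (g₁ l)) (h₂ : ∀ l, IsForm (g₂ l)) (a) : IsForm (segreEqs g₁ g₂ a) := by
  rcases a with a | a | a
  · exact ⟨2, two_pos, ((isHomogeneous_X K _).mul (isHomogeneous_X K _)).sub
      ((isHomogeneous_X K _).mul (isHomogeneous_X K _))⟩
  · obtain ⟨D, hD, h⟩ := h₁ a.2
    exact ⟨D, hD, h.rename_isHomogeneous⟩
  · obtain ⟨D, hD, h⟩ := h₂ a.2
    exact ⟨D, hD, h.rename_isHomogeneous⟩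

theorem aeval_smul_fin {ι : Type} [Finite ι] {Q : MvPolynomial ι K} {D : ℕ}
    (hQ : Q.IsHomogeneous D) (a : L) (t : ι → L) :
    aeval (fun i => a * t i) Q = a ^ D * aeval t Q := by
  have := Fintype.ofFinite ι
  rw [← eval_map_alg, ← eval_map_alg]
  exact eval_smul_of_homogeneous (hQ.map _) a t

theorem aeval_zero_form {ι : Type} [Finite ι] {Q : MvPolynomial ι K} (hQ : IsForm Q) :
    aeval (0 : ι → L) Q = 0 := by
  obtain ⟨D, hD, h⟩ := hQ
  have h1 := aeval_smul_fin h (0 : L) (0 : ι → L)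
  rw [zero_pow hD.ne', zero_mul] at h1
  have h2 : (fun i => (0 : L) * (0 : ι → L) i) = 0 := funext fun i => zero_mul _
  rwa [h2] at h1

theorem segre_eq [Finite ι₁] [Finite ι₂] {g₁ : Fin r₁ → MvPolynomial ι₁ K}
    {g₂ : Fin r₂ → MvPolynomial ι₂ K}
    (h₁ : ∀ l, IsForm (g₁ l)) (h₂ : ∀ l, IsForm (g₂ l)) :
    segre {y : ι₁ → L | ∀ l, aeval y (g₁ l) = 0} {z : ι₂ → L | ∀ l, aeval z (g₂ l) = 0} =
      {x | ∀ a, aeval x (segreEqs g₁ g₂ a) = 0} := by
  ext x
  constructor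
  · rintro ⟨y, hy, z, hz, hx⟩
    rintro (a | a | a)
    · simp only [segreEqs, Sum.elim_inl, map_sub, map_mul, aeval_X]
      obtain ⟨⟨i, j⟩, ⟨k, l⟩⟩ := a
      simp only [hx]
      ring
    · simp only [segreEqs, Sum.elim_inr, Sum.elim_inl, aeval_rename]
      obtain ⟨D, hD, h⟩ := h₁ a.2
      have h1 := aeval_smul_fin h (z a.1) y
      rw [hy a.2, mul_zero] at h1
      rw [← h1]
      congr 2
      funext i
      simp only [Function.comp_apply, hx]
      ring
    · simp only [segreEqs, Sum.elim_inr, aeval_rename]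
      obtain ⟨D, hD, h⟩ := h₂ a.2
      have h1 := aeval_smul_fin h (y a.1) z
      rw [hz a.2, mul_zero] at h1
      rw [← h1]
      congr 2
      funext i
      simp only [Function.comp_apply, hx]
  · intro hx
    by_cases h0 : x = 0
    · refine ⟨0, fun l => aeval_zero_form (h₁ l), 0, fun l => aeval_zero_form (h₂ l),
        fun i j => ?_⟩
      rw [h0, Pi.zero_apply, Pi.zero_apply, zero_mul]
    · obtain ⟨⟨i0, j0⟩, hij⟩ := Function.ne_iff.1 h0
      have hij' : x (i0, j0) ≠ 0 := hij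
      refine ⟨fun i => x (i, j0), fun l => ?_, fun j => (x (i0, j0))⁻¹ * x (i0, j),
        fun l => ?_, fun i j => ?_⟩
      · have h1 := hx (Sum.inr (Sum.inl (j0, l)))
        simp only [segreEqs, Sum.elim_inr, Sum.elim_inl, aeval_rename] at h1
        exact h1
      · have h1 := hx (Sum.inr (Sum.inr (i0, l)))
        simp only [segreEqs, Sum.elim_inr, aeval_rename] at h1
        obtain ⟨D, hD, h⟩ := h₂ l
        have h2 := aeval_smul_fin h (x (i0, j0))⁻¹ (fun j => x (i0, j))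
        have h3 : aeval (fun j => x (i0, j)) (g₂ l) = 0 := h1
        rw [h3, mul_zero] at h2
        exact h2
      · have h1 := hx (Sum.inl ((i, j), (i0, j0)))
        simp only [segreEqs, Sum.elim_inl, map_sub, map_mul, aeval_X] at h1
        rw [sub_eq_zero] at h1
        field_simp
        rw [← h1]

/-- The common zeros of forms are a closed cone. -/
theorem cone_of_forms {ι κ : Type} [Finite ι] {G : κ → MvPolynomial ι K} (hG : ∀ k, IsForm (G k)) :
    IsConeOver K {x : ι → L | ∀ k, aeval x (G k) = 0} := by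
  constructor
  · refine ⟨Ideal.span (Set.range G), ?_⟩
    ext x
    rw [mem_zeroLocus_iff]
    constructor
    · intro h P hP
      have h1 : Ideal.span (Set.range G) ≤ RingHom.ker (aeval x : MvPolynomial ι K →ₐ[K] L) := by
        refine Ideal.span_le.2 ?_
        rintro _ ⟨k, rfl⟩
        exact h k
      exact h1 hP
    · intro h k
      exact h _ (Ideal.subset_span ⟨k, rfl⟩)
  · intro a y hy k
    obtain ⟨D, hD, h⟩ := hG k
    have h1 := aeval_smul_fin h a y
    rw [hy k, mul_zero] at h1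
    exact h1

end eqs

section dim

variable {F : Type} [Field F] [IsAlgClosed F] {ι₁ ι₂ : Type} [Finite ι₁] [Finite ι₂] {r₁ r₂ : ℕ}

theorem zeroLocus_span {ι κ : Type} (G : κ → MvPolynomial ι F) :
    zeroLocus F (Ideal.span (Set.range G)) = {x : ι → F | ∀ k, eval x (G k) = 0} := by
  ext x
  rw [mem_zeroLocus_iff]
  constructor
  · intro h k
    have h1 := h _ (Ideal.subset_span ⟨k, rfl⟩)
    rwa [aeval_eq_eval] at h1
  · intro h P hP
    have h1 : Ideal.span (Set.range G) ≤ RingHom.ker (aeval x : MvPolynomial ι F →ₐ[F] F) := by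
      refine Ideal.span_le.2 ?_
      rintro _ ⟨k, rfl⟩
      change aeval x (G k) = 0
      rw [aeval_eq_eval]
      exact h k
    exact h1 hP

open Cardinal in
/-- The dimension of a product. -/
theorem dimGE_segre {g₁ : Fin r₁ → MvPolynomial ι₁ F} {g₂ : Fin r₂ → MvPolynomial ι₂ F}
    (h₁ : ∀ l, IsForm (g₁ l)) (h₂ : ∀ l, IsForm (g₂ l)) {d₁ d₂ : ℕ}
    (hd₁ : DimGE {y : ι₁ → F | ∀ l, eval y (g₁ l) = 0} d₁)
    (hd₂ : DimGE {z : ι₂ → F | ∀ l, eval z (g₂ l) = 0} d₂) :
    DimGE {x | ∀ a, eval x (segreEqs g₁ g₂ a) = 0} (d₁ + d₂) := by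
  classical
  intro q hq
  by_contra hno
  push Not at hno
  -- the prime ideals
  have hcone : ∀ {ι : Type} [Finite ι] {r : ℕ} {g : Fin r → MvPolynomial ι F},
      (∀ l, IsForm (g l)) → ∀ a : F, ∀ y ∈ zeroLocus F (Ideal.span (Set.range g)),
        a • y ∈ zeroLocus F (Ideal.span (Set.range g)) := by
    intro ι _ r g hg a y hy
    have := Fintype.ofFinite ι
    rw [zeroLocus_span] at hy ⊢
    intro l
    obtain ⟨D, hD, h⟩ := hg l
    have h1 := eval_smul_of_homogeneous h a y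
    rw [hy l, mul_zero] at h1
    exact h1
  rw [← zeroLocus_span] at hd₁ hd₂
  obtain ⟨P₁, hP₁, hJ₁, z₁, hz₁⟩ := exists_algInd (hcone h₁) hd₁
  obtain ⟨P₂, hP₂, hJ₂, z₂, hz₂⟩ := exists_algInd (hcone h₂) hd₂
  obtain ⟨Q, hQ, hw⟩ := exists_domain hz₁ hz₂
  let T := (MvPolynomial ι₁ F ⧸ P₁) ⊗[F] (MvPolynomial ι₂ F ⧸ P₂)
  let R := T ⧸ Q
  let φ₁ : MvPolynomial ι₁ F →ₐ[F] R := (Ideal.Quotient.mkₐ F Q).comp
    (Algebra.TensorProduct.includeLeft.comp (Ideal.Quotient.mkₐ F P₁))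
  let φ₂ : MvPolynomial ι₂ F →ₐ[F] R := (Ideal.Quotient.mkₐ F Q).comp
    (Algebra.TensorProduct.includeRight.comp (Ideal.Quotient.mkₐ F P₂))
  have hφ₁ : ∀ l, φ₁ (g₁ l) = 0 := by
    intro l
    have h1 : Ideal.Quotient.mkₐ F P₁ (g₁ l) = 0 :=
      Ideal.Quotient.eq_zero_iff_mem.2 (hJ₁ (Ideal.subset_span ⟨l, rfl⟩))
    simp only [φ₁, AlgHom.comp_apply, h1, map_zero]
  have hφ₂ : ∀ l, φ₂ (g₂ l) = 0 := by
    intro l
    have h1 : Ideal.Quotient.mkₐ F P₂ (g₂ l) = 0 :=
      Ideal.Quotient.eq_zero_iff_mem.2 (hJ₂ (Ideal.subset_span ⟨l, rfl⟩))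
    simp only [φ₂, AlgHom.comp_apply, h1, map_zero]
  have hφ₁' : ∀ f, φ₁ f = aeval (fun i => φ₁ (X i)) f := fun f => by
    have h1 : φ₁ = aeval (fun i => φ₁ (X i)) := by
      ext i
      rw [aeval_X]
    exact congrArg (fun ψ : MvPolynomial ι₁ F →ₐ[F] R => ψ f) h1
  have hφ₂' : ∀ f, φ₂ f = aeval (fun i => φ₂ (X i)) f := fun f => by
    have h1 : φ₂ = aeval (fun i => φ₂ (X i)) := by
      ext i
      rw [aeval_X]
    exact congrArg (fun ψ : MvPolynomial ι₂ F →ₐ[F] R => ψ f) h1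
  have hsmul : ∀ {ι : Type} [Finite ι] {f : MvPolynomial ι F} {D : ℕ}, f.IsHomogeneous D →
      ∀ (a : R) (t : ι → R), aeval (fun i => a * t i) f = a ^ D * aeval t f := by
    intro ι _ f D hf a t
    have := Fintype.ofFinite ι
    have h1 := eval_smul_of_homogeneous (hf.map (algebraMap F R)) a t
    rw [eval_map, eval_map, ← aeval_def, ← aeval_def] at h1
    exact h1
  -- the map from the ring of the product
  let θ : MvPolynomial (ι₁ × ι₂) F →ₐ[F] R := aeval fun a => φ₁ (X a.1) * φ₂ (X a.2)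
  let I : Ideal (MvPolynomial (ι₁ × ι₂) F) := Ideal.span (Set.range (segreEqs g₁ g₂))
  have hI : I ≤ RingHom.ker θ := by
    refine Ideal.span_le.2 ?_
    rintro _ ⟨a, rfl⟩
    change θ (segreEqs g₁ g₂ a) = 0
    rcases a with a | a | a
    · simp only [segreEqs, Sum.elim_inl, map_sub, map_mul, θ, aeval_X]
      ring
    · simp only [segreEqs, Sum.elim_inr, Sum.elim_inl, θ, aeval_rename]
      obtain ⟨D, hD, h⟩ := h₁ a.2
      have h1 := hsmul h (φ₂ (X a.1)) (fun i => φ₁ (X i))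
      rw [← hφ₁', hφ₁, mul_zero] at h1
      rw [← h1]
      congr 2
      funext i
      simp only [Function.comp_apply]
      ring
    · simp only [segreEqs, Sum.elim_inr, θ, aeval_rename]
      obtain ⟨D, hD, h⟩ := h₂ a.2
      have h1 := hsmul h (φ₁ (X a.1)) (fun i => φ₂ (X i))
      rw [← hφ₂', hφ₂, mul_zero] at h1
      rw [← h1]
      congr 2
  let θ' : (MvPolynomial (ι₁ × ι₂) F ⧸ I) →ₐ[F] R := Ideal.Quotient.liftₐ I θ fun a ha => hI ha
  have hθ' : ∀ f, θ' (Ideal.Quotient.mkₐ F I f) = θ f := fun f => rfl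
  have hform := segreEqs_form h₁ h₂
  choose Dg hDg hDg' using hform
  have hhom : ∀ f ∈ I, ∀ n, homogeneousComponent n f ∈ I := fun f hf n =>
    homogeneousComponent_mem_of_mem (Pool.Agent.Y129.TA.span_isHomogeneous _ Dg hDg') hf n
  have hint := integral_of_no_zero hhom q hq (fun w hw1 hw2 => by
    by_contra hw0
    rw [zeroLocus_span] at hw1
    obtain ⟨j, hj⟩ := hno w hw1 hw0
    exact hj (hw2 j))
  -- the base ring
  have hexj : ∃ j, φ₂ (X j) ≠ 0 := by
    by_contra hz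
    push Not at hz
    have h3 : ∀ b : MvPolynomial ι₂ F, ∃ c : F, φ₂ b = algebraMap F R c := by
      intro b
      refine ⟨coeff 0 b, ?_⟩
      rw [hφ₂']
      have h4 : (fun i => φ₂ (X i)) = 0 := funext hz
      rw [h4]
      change (aeval (0 : ι₂ → R)) b = _
      rw [aeval_zero]
      rfl
    obtain ⟨b, hb⟩ := Ideal.Quotient.mk_surjective (z₂ 0)
    obtain ⟨c, hc⟩ := h3 b
    have h5 := hw.transcendental (Sum.inr 0)
    refine h5 ?_
    have h6 : (Ideal.Quotient.mkₐ F Q (Sum.elim (fun i => z₁ i ⊗ₜ[F] 1)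
        (fun j => 1 ⊗ₜ[F] z₂ j) (Sum.inr 0))) = φ₂ b := by
      rw [Sum.elim_inr, ← hb]
      rfl
    rw [h6, hc]
    exact isAlgebraic_algebraMap c
  have hexi : ∃ i, φ₁ (X i) ≠ 0 := by
    by_contra hz
    push Not at hz
    have h3 : ∀ b : MvPolynomial ι₁ F, ∃ c : F, φ₁ b = algebraMap F R c := by
      intro b
      refine ⟨coeff 0 b, ?_⟩
      rw [hφ₁']
      have h4 : (fun i => φ₁ (X i)) = 0 := funext hz
      rw [h4]
      change (aeval (0 : ι₁ → R)) b = _
      rw [aeval_zero]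
      rfl
    obtain ⟨b, hb⟩ := Ideal.Quotient.mk_surjective (z₁ 0)
    obtain ⟨c, hc⟩ := h3 b
    have h5 := hw.transcendental (Sum.inl 0)
    refine h5 ?_
    have h6 : (Ideal.Quotient.mkₐ F Q (Sum.elim (fun i => z₁ i ⊗ₜ[F] 1)
        (fun j => 1 ⊗ₜ[F] z₂ j) (Sum.inl 0))) = φ₁ b := by
      rw [Sum.elim_inl, ← hb]
      rfl
    rw [h6, hc]
    exact isAlgebraic_algebraMap c
  obtain ⟨j₀, hj₀⟩ := hexj
  obtain ⟨i₀, hi₀⟩ := hexi
  let S : Set R := insert (φ₂ (X j₀)) (Set.range fun k => θ (q k))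
  let B := Algebra.adjoin F S
  have hmul : ∀ i j, IsAlgebraic B (φ₁ (X i) * φ₂ (X j)) := by
    intro i j
    obtain ⟨P, hP, hPa⟩ := hint (Ideal.Quotient.mkₐ F I (X (i, j)))
    have hmem : ∀ r : MvPolynomial (Fin (d₁ + d₂)) F, aeval (fun k => θ (q k)) r ∈ B := by
      intro r
      have h3 : (aeval fun k => θ (q k)) r ∈ Algebra.adjoin F (Set.range fun k => θ (q k)) := by
        rw [Algebra.adjoin_range_eq_range_aeval]
        exact ⟨r, rfl⟩
      exact Algebra.adjoin_mono (Set.subset_insert _ _) h3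
    let ψ : MvPolynomial (Fin (d₁ + d₂)) F →+* B :=
      ((aeval fun k => θ (q k)).codRestrict _ hmem).toRingHom
    have h4 : IsIntegral B (φ₁ (X i) * φ₂ (X j)) := by
      refine ⟨P.map ψ, hP.map ψ, ?_⟩
      rw [Polynomial.eval₂_map]
      have h5 := congrArg θ' hPa
      rw [map_zero, ← AlgHom.coe_toRingHom, Polynomial.hom_eval₂] at h5
      have h6 : (θ'.toRingHom) (Ideal.Quotient.mkₐ F I (X (i, j))) = φ₁ (X i) * φ₂ (X j) := by
        change θ (X (i, j)) = _
        rw [aeval_X]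
      have h7 : (algebraMap B R).comp ψ = θ'.toRingHom.comp
          (aeval fun j => Ideal.Quotient.mkₐ F I (q j)).toRingHom := by
        refine MvPolynomial.ringHom_ext (fun c => ?_) fun k => ?_
        · change (aeval fun k => θ (q k)) (C c) = θ' ((aeval fun j => Ideal.Quotient.mkₐ F I (q j)) (C c))
          rw [aeval_C, aeval_C, AlgHom.commutes]
        · change (aeval fun k => θ (q k)) (X k) = θ' ((aeval fun j => Ideal.Quotient.mkₐ F I (q j)) (X k))
          rw [aeval_X, aeval_X, hθ']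
      rw [h7, ← h6]
      exact h5
    exact h4.isAlgebraic
  have hzj₀ : IsAlgebraic B (φ₂ (X j₀)) := by
    have h3 : φ₂ (X j₀) ∈ B := Algebra.subset_adjoin (Set.mem_insert _ _)
    exact isAlgebraic_algebraMap (⟨φ₂ (X j₀), h3⟩ : B)
  have hx : ∀ i, IsAlgebraic B (φ₁ (X i)) := by
    intro i
    have h3 := hmul i j₀
    rw [mul_comm] at h3
    exact IsAlgebraic.of_mul (mem_nonZeroDivisors_of_ne_zero hj₀) hzj₀ h3
  have hz : ∀ j, IsAlgebraic B (φ₂ (X j)) := fun j =>
    IsAlgebraic.of_mul (mem_nonZeroDivisors_of_ne_zero hi₀) (hx i₀) (hmul i₀ j)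
  have hall₁ : ∀ f, IsAlgebraic B (φ₁ f) := by
    intro f
    rw [← Subalgebra.mem_algebraicClosure]
    induction f using MvPolynomial.induction_on with
    | C c =>
      have h3 : φ₁ (C c) = algebraMap B R (algebraMap F B c) := φ₁.commutes c
      rw [h3]
      exact Subalgebra.algebraMap_mem _ _
    | add f g hf hg => rw [map_add]; exact add_mem hf hg
    | mul_X f i hf => rw [map_mul]; exact mul_mem hf (hx i)
  have hall₂ : ∀ f, IsAlgebraic B (φ₂ f) := by
    intro f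
    rw [← Subalgebra.mem_algebraicClosure]
    induction f using MvPolynomial.induction_on with
    | C c =>
      have h3 : φ₂ (C c) = algebraMap B R (algebraMap F B c) := φ₂.commutes c
      rw [h3]
      exact Subalgebra.algebraMap_mem _ _
    | add f g hf hg => rw [map_add]; exact add_mem hf hg
    | mul_X f i hf => rw [map_mul]; exact mul_mem hf (hz i)
  have halg : Algebra.IsAlgebraic B R := by
    constructor
    intro a
    obtain ⟨t, rfl⟩ := Ideal.Quotient.mk_surjective a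
    rw [← Subalgebra.mem_algebraicClosure]
    induction t using TensorProduct.induction_on with
    | zero => rw [map_zero]; exact zero_mem _
    | tmul a b =>
      obtain ⟨f, rfl⟩ := Ideal.Quotient.mk_surjective a
      obtain ⟨g, rfl⟩ := Ideal.Quotient.mk_surjective b
      have h3 : Ideal.Quotient.mk Q (Ideal.Quotient.mk P₁ f ⊗ₜ[F] Ideal.Quotient.mk P₂ g) =
          φ₁ f * φ₂ g := by
        change _ = Ideal.Quotient.mk Q (Ideal.Quotient.mk P₁ f ⊗ₜ[F] 1) *
          Ideal.Quotient.mk Q (1 ⊗ₜ[F] Ideal.Quotient.mk P₂ g)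
        rw [← map_mul, Algebra.TensorProduct.tmul_mul_tmul, mul_one, one_mul]
      rw [h3]
      exact mul_mem (hall₁ f) (hall₂ g)
    | add s t hs ht => rw [map_add]; exact add_mem hs ht
  have h4 : Algebra.trdeg F R ≤ #S := Algebra.IsAlgebraic.trdeg_le_cardinalMk F S
  have h5 := hw.cardinalMk_le_trdeg
  have h6 : #S ≤ #(Set.range fun k => θ (q k)) + 1 := Cardinal.mk_insert_le
  have h7 : #(Set.range fun k => θ (q k)) ≤ #(Fin (d₁ + d₂)) := Cardinal.mk_range_le
  have h8 := h5.trans (h4.trans (h6.trans (add_le_add_left h7 1)))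
  rw [Cardinal.mk_fin, Cardinal.mk_sum, Cardinal.lift_id, Cardinal.lift_id, Cardinal.mk_fin,
    Cardinal.mk_fin] at h8
  have h9 : d₁ + 1 + (d₂ + 1) ≤ d₁ + d₂ + 1 := by exact_mod_cast h8
  omega

end dim

end Pool.Agent.R388.TP
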