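import Pool.Agent.R388.TP.Segre
set_option autoImplicit false

/-!
# Products: the upper bound of the dimension
-/

open MvPolynomial Pool.Agent.Y129.TA Pool.Agent.Y129.TB

namespace Pool.Agent.R388.TP

variable {F : Type} [Field F] {ι₁ ι₂ : Type} [Finite ι₁] [Finite ι₂]

theorem exists_mon : ∀ (a : ℕ) (α : ι₁ →₀ ℕ) (β : ι₂ →₀ ℕ), α.degree = a → β.degree = a →
    ∃ Φ : MvPolynomial (ι₁ × ι₂) F, Φ.IsHomogeneous a ∧ ∀ (y : ι₁ → F) (z : ι₂ → F),
      eval (fun t => y t.1 * z t.2) Φ = eval y (monomial α 1) * eval z (monomial β 1) := by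
  classical
  intro a
  induction a with
  | zero =>
    intro α β hα hβ
    have h1 : α = 0 := (Finsupp.degree_eq_zero_iff α).1 hα
    have h2 : β = 0 := (Finsupp.degree_eq_zero_iff β).1 hβ
    refine ⟨1, isHomogeneous_one _ _, fun y z => ?_⟩
    rw [h1, h2]
    simp
  | succ a ih =>
    intro α β hα hβ
    have hex : ∀ {ι : Type} (γ : ι →₀ ℕ), γ.degree = a + 1 → ∃ (i : ι) (γ' : ι →₀ ℕ),
        γ = γ' + Finsupp.single i 1 ∧ γ'.degree = a := by
      intro ι γ hγ
      have h1 : γ ≠ 0 := by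
        rintro rfl
        rw [map_zero] at hγ
        omega
      obtain ⟨i, hi⟩ := Finsupp.ne_iff.1 h1
      have h2 : Finsupp.single i 1 ≤ γ := by
        rw [Finsupp.single_le_iff]
        exact Nat.one_le_iff_ne_zero.2 hi
      refine ⟨i, γ - Finsupp.single i 1, (tsub_add_cancel_of_le h2).symm, ?_⟩
      have h3 : (γ - Finsupp.single i 1 + Finsupp.single i 1).degree = a + 1 := by
        rw [tsub_add_cancel_of_le h2, hγ]
      rw [map_add, Finsupp.degree_single] at h3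
      omega
    obtain ⟨i, α', h1, h2⟩ := hex α hα
    obtain ⟨j, β', h3, h4⟩ := hex β hβ
    obtain ⟨Φ, h5, h6⟩ := ih α' β' h2 h4
    refine ⟨Φ * X (i, j), h5.mul (isHomogeneous_X _ _), fun y z => ?_⟩
    have h7 : ∀ {ι : Type} (γ' : ι →₀ ℕ) (i : ι),
        (monomial (γ' + Finsupp.single i 1) 1 : MvPolynomial ι F) = monomial γ' 1 * X i := by
      intro ι γ' i
      rw [X, monomial_mul, mul_one]
    rw [map_mul, h6, eval_X, h1, h3, h7, h7, map_mul, map_mul, eval_X, eval_X]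
    ring

theorem exists_odot {a : ℕ} {f : MvPolynomial ι₁ F} {g : MvPolynomial ι₂ F}
    (hf : f.IsHomogeneous a) (hg : g.IsHomogeneous a) :
    ∃ Φ : MvPolynomial (ι₁ × ι₂) F, Φ.IsHomogeneous a ∧ ∀ (y : ι₁ → F) (z : ι₂ → F),
      eval (fun t => y t.1 * z t.2) Φ = eval y f * eval z g := by
  classical
  have := Fintype.ofFinite ι₁
  have := Fintype.ofFinite ι₂
  have hdeg : ∀ {ι : Type} [Fintype ι] {h : MvPolynomial ι F}, h.IsHomogeneous a →
      ∀ α ∈ h.support, α.degree = a := by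
    intro ι _ h hh α hα
    have h2 : ∑ i, α i = a := sum_of_homogeneous hh hα
    rw [Finsupp.degree_apply, ← h2]
    exact Finset.sum_subset (Finset.subset_univ _) (by simp)
  have hmon : ∀ {ι : Type} (y : ι → F) (α : ι →₀ ℕ) (c : F),
      eval y (monomial α c) = c * eval y (monomial α 1) := by
    intro ι y α c
    rw [← mul_one c, ← C_mul_monomial, map_mul, eval_C, mul_one]
  -- one monomial of `f`
  have h1 : ∀ α ∈ f.support, ∃ Φ : MvPolynomial (ι₁ × ι₂) F, Φ.IsHomogeneous a ∧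
      ∀ (y : ι₁ → F) (z : ι₂ → F),
        eval (fun t => y t.1 * z t.2) Φ = eval y (monomial α (coeff α f)) * eval z g := by
    intro α hα
    have h2 := Finset.sum_induction (s := g.support) (fun β => monomial β (coeff β g))
      (fun g' => ∃ Φ : MvPolynomial (ι₁ × ι₂) F, Φ.IsHomogeneous a ∧
        ∀ (y : ι₁ → F) (z : ι₂ → F),
          eval (fun t => y t.1 * z t.2) Φ = eval y (monomial α (coeff α f)) * eval z g')
      (by
        rintro g1 g2 ⟨Φ1, h3, h4⟩ ⟨Φ2, h5, h6⟩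
        refine ⟨Φ1 + Φ2, h3.add h5, fun y z => ?_⟩
        rw [map_add, h4, h6, map_add, mul_add])
      ⟨0, isHomogeneous_zero _ _ _, fun y z => by rw [map_zero, map_zero, mul_zero]⟩
      (by
        intro β hβ
        obtain ⟨Φ, h3, h4⟩ := exists_mon (F := F) a α β (hdeg hf α hα) (hdeg hg β hβ)
        refine ⟨C (coeff α f * coeff β g) * Φ, ?_, fun y z => ?_⟩
        · have h5 := (isHomogeneous_C (ι₁ × ι₂) (coeff α f * coeff β g)).mul h3
          rwa [zero_add] at h5
        · rw [map_mul, eval_C, h4, hmon y α (coeff α f), hmon z β (coeff β g)]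
          ring)
    rwa [support_sum_monomial_coeff] at h2
  have h2 := Finset.sum_induction (s := f.support) (fun α => monomial α (coeff α f))
    (fun f' => ∃ Φ : MvPolynomial (ι₁ × ι₂) F, Φ.IsHomogeneous a ∧
      ∀ (y : ι₁ → F) (z : ι₂ → F),
        eval (fun t => y t.1 * z t.2) Φ = eval y f' * eval z g)
    (by
      rintro g1 g2 ⟨Φ1, h3, h4⟩ ⟨Φ2, h5, h6⟩
      refine ⟨Φ1 + Φ2, h3.add h5, fun y z => ?_⟩
      rw [map_add, h4, h6, map_add, add_mul])
    ⟨0, isHomogeneous_zero _ _ _, fun y z => by rw [map_zero, map_zero, zero_mul]⟩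
    h1
  rwa [support_sum_monomial_coeff] at h2

/-- Forms without common zeros can be replaced by forms of the same degree. -/
theorem exists_same {ι : Type} {d : ℕ} {q : Fin d → MvPolynomial ι F} {D : Fin d → ℕ}
    (hq : ∀ j, (q j).IsHomogeneous (D j)) {a : ℕ} (ha : 0 < a) (hD : ∀ j, D j ∣ a) :
    ∃ q' : ℕ → MvPolynomial ι F, (∀ n, (q' n).IsHomogeneous a) ∧ (∀ n, d ≤ n → q' n = 0) ∧
      ∀ y : ι → F, (∀ n, eval y (q' n) = 0) → ∀ j, eval y (q j) = 0 := by
  classical
  refine ⟨fun n => if h : n < d then q ⟨n, h⟩ ^ (a / D ⟨n, h⟩) else 0, fun n => ?_, fun n hn => ?_,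
    fun y hy j => ?_⟩
  · by_cases h : n < d
    · simp only [dif_pos h]
      have h1 := (hq ⟨n, h⟩).pow (a / D ⟨n, h⟩)
      rwa [Nat.mul_div_cancel' (hD ⟨n, h⟩)] at h1
    · simp only [dif_neg h]
      exact isHomogeneous_zero _ _ _
  · simp only [dif_neg (not_lt.2 hn)]
  · have h1 := hy j
    simp only [dif_pos j.2] at h1
    rw [map_pow] at h1
    exact eq_zero_of_pow_eq_zero h1

/-- The upper bound for the dimension of a product. -/
theorem dimLE_segre {Y₁ : Set (ι₁ → F)} {Y₂ : Set (ι₂ → F)} {d₁ d₂ : ℕ} (h₁ : DimLE Y₁ d₁)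
    (h₂ : DimLE Y₂ d₂) : DimLE (segre Y₁ Y₂) (d₁ + d₂) := by
  classical
  obtain ⟨q₁, hq₁, h0₁⟩ := h₁
  obtain ⟨q₂, hq₂, h0₂⟩ := h₂
  choose D₁ hD₁ hqD₁ using hq₁
  choose D₂ hD₂ hqD₂ using hq₂
  let a := (∏ j, D₁ j) * ∏ j, D₂ j
  have ha : 0 < a := Nat.mul_pos (Finset.prod_pos fun j _ => hD₁ j)
    (Finset.prod_pos fun j _ => hD₂ j)
  obtain ⟨u, hu, hu0, hu'⟩ := exists_same hqD₁ ha fun j =>
    (Finset.dvd_prod_of_mem _ (Finset.mem_univ j)).trans (Dvd.intro _ rfl)
  obtain ⟨v, hv, hv0, hv'⟩ := exists_same hqD₂ ha fun j =>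
    (Finset.dvd_prod_of_mem _ (Finset.mem_univ j)).trans (Dvd.intro_left _ rfl)
  choose Φ hΦ hΦe using fun i j => exists_odot (hu i) (hv j)
  refine ⟨fun k => ∑ t ∈ Finset.HasAntidiagonal.antidiagonal (k : ℕ), Φ t.1 t.2,
    fun k => ⟨a, ha, IsHomogeneous.sum _ _ _ fun t _ => hΦ _ _⟩, ?_⟩
  rintro x ⟨y, hy, z, hz, hx⟩ hk
  have hx' : x = fun t => y t.1 * z t.2 := funext fun t => hx t.1 t.2
  let A : Polynomial F := ∑ i ∈ Finset.range (d₁ + 1),
    Polynomial.C (eval y (u i)) * Polynomial.X ^ i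
  let B : Polynomial F := ∑ i ∈ Finset.range (d₂ + 1),
    Polynomial.C (eval z (v i)) * Polynomial.X ^ i
  have hA : ∀ n, A.coeff n = eval y (u n) := by
    intro n
    simp only [A, Polynomial.finset_sum_coeff, Polynomial.coeff_C_mul, Polynomial.coeff_X_pow,
      mul_ite, mul_one, mul_zero]
    rw [Finset.sum_ite_eq]
    split_ifs with h
    · rfl
    · rw [hu0 n (by rw [Finset.mem_range] at h; omega), map_zero]
  have hB : ∀ n, B.coeff n = eval z (v n) := by
    intro n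
    simp only [B, Polynomial.finset_sum_coeff, Polynomial.coeff_C_mul, Polynomial.coeff_X_pow,
      mul_ite, mul_one, mul_zero]
    rw [Finset.sum_ite_eq]
    split_ifs with h
    · rfl
    · rw [hv0 n (by rw [Finset.mem_range] at h; omega), map_zero]
  have hAB : A * B = 0 := by
    ext n
    rw [Polynomial.coeff_mul, Polynomial.coeff_zero]
    by_cases hn : n < d₁ + d₂ + 1
    · have h1 := hk ⟨n, hn⟩
      rw [map_sum] at h1
      rw [← h1]
      refine Finset.sum_congr rfl fun t _ => ?_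
      rw [hA, hB, hx', hΦe]
    · refine Finset.sum_eq_zero fun t ht => ?_
      rw [Finset.HasAntidiagonal.mem_antidiagonal] at ht
      rw [hA, hB]
      by_cases h1 : d₁ + 1 ≤ t.1
      · rw [hu0 _ h1, map_zero, zero_mul]
      · rw [hv0 _ (by omega), map_zero, mul_zero]
  rcases mul_eq_zero.1 hAB with h1 | h1
  · have h2 : y = 0 := h0₁ y hy (hu' y fun n => by rw [← hA, h1, Polynomial.coeff_zero])
    rw [hx', h2]
    funext t
    simp
  · have h2 : z = 0 := h0₂ z hz (hv' z fun n => by rw [← hB, h1, Polynomial.coeff_zero])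
    rw [hx', h2]
    funext t
    simp

end Pool.Agent.R388.TP
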