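import Pool.Agent.R388.TP.Final
set_option autoImplicit false

/-!
# Toric varieties
-/

open MvPolynomial Pool.Agent.Y129.TA Pool.Agent.Y129.TB

set_option linter.unusedSectionVars false

namespace Pool.Agent.R388.TP

section integral

variable {F : Type} [Field F] [IsAlgClosed F] {σ : Type} [Finite σ]

/-- If the forms `q j` have no common zero on the cone of `I`, then the ring of the cone is integral
over the polynomials in the `q j`. -/
theorem integral_of_no_zero {I : Ideal (MvPolynomial σ F)}
    (hI : ∀ f ∈ I, ∀ n, homogeneousComponent n f ∈ I) {d : ℕ} (q : Fin d → MvPolynomial σ F)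
    (hq : ∀ j, IsForm (q j))
    (h0 : ∀ w ∈ zeroLocus F I, (∀ j, eval w (q j) = 0) → w = 0) :
    (aeval (R := F) fun j => Ideal.Quotient.mkₐ F I (q j)).toRingHom.IsIntegral := by
  classical
  have : Fintype σ := Fintype.ofFinite σ
  choose D hD hqD using hq
  let mk := Ideal.Quotient.mkₐ F I
  let φ : MvPolynomial (Fin d) F →ₐ[F] (MvPolynomial σ F ⧸ I) := aeval fun j => mk (q j)
  let : Algebra (MvPolynomial (Fin d) F) (MvPolynomial σ F ⧸ I) := φ.toRingHom.toAlgebra
  have hsm : ∀ (r : MvPolynomial (Fin d) F) (a : MvPolynomial σ F ⧸ I), r • a = φ r * a :=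
    fun r a => Algebra.smul_def r a
  set U : Ideal (MvPolynomial σ F) := Ideal.span (Set.range q) with hU
  obtain ⟨L, hL⟩ : ∃ L : ℕ,
      (Ideal.span (Set.range (X : σ → MvPolynomial σ F))) ^ L ≤ I ⊔ U := by
    have h1 : Ideal.span (Set.range (X : σ → MvPolynomial σ F)) ≤ (I ⊔ U).radical := by
      rw [Ideal.span_le]
      rintro _ ⟨i, rfl⟩
      rw [SetLike.mem_coe, ← vanishingIdeal_zeroLocus_eq_radical (K := F), mem_vanishingIdeal_iff]
      intro w hw
      rw [mem_zeroLocus_iff] at hw
      have hw0 : w = 0 := by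
        refine h0 w (mem_zeroLocus_iff.2 fun f hf => hw f (Ideal.mem_sup_left hf)) fun j => ?_
        have h2 := hw (q j) (Ideal.mem_sup_right (Ideal.subset_span ⟨j, rfl⟩))
        rwa [aeval_eq_eval] at h2
      rw [aeval_X, hw0]
      rfl
    obtain ⟨L, hL⟩ := Ideal.exists_pow_le_of_le_radical_of_fg h1
      ⟨(Set.finite_range (X : σ → MvPolynomial σ F)).toFinset, by simp⟩
    exact ⟨L, hL⟩
  let M : Submodule (MvPolynomial (Fin d) F) (MvPolynomial σ F ⧸ I) :=
    Submodule.span _ {a | ∃ α : σ →₀ ℕ, α.degree < L ∧ a = mk (monomial α 1)}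
  have hCM : ∀ (c : F) (a : MvPolynomial σ F ⧸ I), a ∈ M → mk (C c) * a ∈ M := by
    intro c a ha
    have h1 : mk (C c) * a = (C c : MvPolynomial (Fin d) F) • a := by
      rw [hsm]
      congr 1
      change _ = aeval _ (C c)
      rw [aeval_C]
      rfl
    rw [h1]
    exact M.smul_mem _ ha
  have hlow : ∀ (f : MvPolynomial σ F) (m : ℕ), m < L → f.IsHomogeneous m → mk f ∈ M := by
    intro f m hm hf
    rw [← support_sum_monomial_coeff f, map_sum]
    refine Submodule.sum_mem _ fun α hα => ?_
    have h1 : monomial α (coeff α f) = C (coeff α f) * monomial α 1 := by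
      rw [C_mul_monomial, mul_one]
    rw [h1, map_mul]
    refine hCM _ _ (Submodule.subset_span ⟨α, ?_, rfl⟩)
    have h2 : ∑ i, α i = m := sum_of_homogeneous hf hα
    have h3 : α.degree = ∑ i, α i := by
      rw [Finsupp.degree_apply]
      exact Finset.sum_subset (Finset.subset_univ _) (by simp)
    omega
  have hall : ∀ n, ∀ f : MvPolynomial σ F, f.IsHomogeneous n → mk f ∈ M := by
    intro n
    induction n using Nat.strong_induction_on with
    | _ n ih =>
      intro f hf
      by_cases hn : n < L
      · exact hlow f n hn hf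
      · have h1 := hL (Ideal.pow_le_pow_right (not_lt.1 hn)
          (Pool.Agent.Y129.TA.mem_pow_of_homogeneous hf))
        obtain ⟨b, hb, a, ha, hba⟩ := Submodule.mem_sup.1 h1
        obtain ⟨c, hc⟩ := (Ideal.mem_span_range_iff_exists_fun).1 ha
        have h2 : f = homogeneousComponent n b + ∑ i, homogeneousComponent n (c i * q i) := by
          rw [← map_sum, hc, ← map_add, hba, homogeneousComponent_eq_self hf]
        have h3 : mk (homogeneousComponent n b) = 0 :=
          Ideal.Quotient.eq_zero_iff_mem.2 (hI b hb n)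
        rw [h2, map_add, h3, zero_add, map_sum]
        refine Submodule.sum_mem _ fun i _ => ?_
        rw [Pool.Agent.Y129.TA.component_mul (hqD i)]
        split_ifs with h4
        · have h5 : mk (homogeneousComponent (n - D i) (c i) * q i) =
              (X i : MvPolynomial (Fin d) F) • mk (homogeneousComponent (n - D i) (c i)) := by
            rw [hsm, map_mul, mul_comm]
            congr 1
            change _ = aeval _ (X i)
            rw [aeval_X]
          rw [h5]
          exact M.smul_mem _ (ih (n - D i) (by have := hD i; omega) _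
            (homogeneousComponent_isHomogeneous _ _))
        · rw [map_zero]
          exact M.zero_mem
  have hfin : Module.Finite (MvPolynomial (Fin d) F) (MvPolynomial σ F ⧸ I) := by
    refine ⟨Submodule.fg_def.2 ⟨{a | ∃ α : σ →₀ ℕ, α.degree < L ∧ a = mk (monomial α 1)}, ?_, ?_⟩⟩
    · have h1 : {a | ∃ α : σ →₀ ℕ, α.degree < L ∧ a = mk (monomial α 1)} =
          (fun α : σ →₀ ℕ => mk (monomial α 1)) '' {α | α.degree < L} := by
        ext a
        constructor
        · rintro ⟨α, h, rfl⟩
          exact ⟨α, h, rfl⟩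
        · rintro ⟨α, h, rfl⟩
          exact ⟨α, h, rfl⟩
      rw [h1]
      refine Set.Finite.image _ ((Finsupp.finite_of_degree_le L).subset fun α hα => ?_)
      exact (show α.degree < L from hα).le
    · rw [eq_top_iff]
      rintro a -
      obtain ⟨f, rfl⟩ := Ideal.Quotient.mk_surjective a
      change mk f ∈ M
      rw [← sum_homogeneousComponent f, map_sum]
      exact Submodule.sum_mem _ fun n _ => hall n _ (homogeneousComponent_isHomogeneous _ _)
  have hint : Algebra.IsIntegral (MvPolynomial (Fin d) F) (MvPolynomial σ F ⧸ I) := inferInstance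
  exact fun a => hint.isIntegral a

open Cardinal in
/-- If the ring of the cone of a prime ideal contains `d + 1` algebraically independent elements, then
the dimension is at least `d`. -/
theorem dimGE_of_algInd {I : Ideal (MvPolynomial σ F)} [I.IsPrime]
    (hI : ∀ f ∈ I, ∀ n, homogeneousComponent n f ∈ I) {d : ℕ}
    (z : Fin (d + 1) → MvPolynomial σ F ⧸ I) (hz : AlgebraicIndependent F z) :
    DimGE (zeroLocus F I) d := by
  intro q hq
  by_contra hno
  push Not at hno
  have h1 := integral_of_no_zero hI q hq (fun w hw hw2 => by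
    by_contra hw0
    obtain ⟨j, hj⟩ := hno w hw hw0
    exact hj (hw2 j))
  let x : Fin d → MvPolynomial σ F ⧸ I := fun j => Ideal.Quotient.mkₐ F I (q j)
  have h2 : Algebra.IsIntegral (Algebra.adjoin F (Set.range x)) (MvPolynomial σ F ⧸ I) := by
    constructor
    intro a
    obtain ⟨P, hP, hPa⟩ := h1 a
    have hmem : ∀ r : MvPolynomial (Fin d) F, aeval x r ∈ Algebra.adjoin F (Set.range x) := by
      intro r
      rw [Algebra.adjoin_range_eq_range_aeval]
      exact ⟨r, rfl⟩
    let g : MvPolynomial (Fin d) F →+* Algebra.adjoin F (Set.range x) :=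
      ((aeval x).codRestrict _ hmem).toRingHom
    refine ⟨P.map g, hP.map g, ?_⟩
    rw [Polynomial.eval₂_map]
    exact hPa
  have h3 : Algebra.IsAlgebraic (Algebra.adjoin F (Set.range x)) (MvPolynomial σ F ⧸ I) :=
    Algebra.IsIntegral.isAlgebraic
  have h4 : Algebra.trdeg F (MvPolynomial σ F ⧸ I) ≤ #(Set.range x) :=
    Algebra.IsAlgebraic.trdeg_le_cardinalMk F (Set.range x)
  have h5 := hz.cardinalMk_le_trdeg
  have h6 : #(Set.range x) ≤ #(Fin d) := Cardinal.mk_range_le
  have h7 := (h5.trans h4).trans h6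
  rw [Cardinal.mk_fin, Cardinal.mk_fin, Nat.cast_le] at h7
  omega

end integral

section toric

/-- The cone over the projective toric variety of the monomials with the exponents
`A 0, ..., A m`: the set of the points which satisfy all relations `x ^ u = x ^ v` where
`∑ u_i A_i = ∑ v_i A_i`. -/
def toricCone (F : Type) [Field F] {m s : ℕ} (A : Fin (m + 1) → Fin s → ℕ) :
    Set (Fin (m + 1) → F) :=
  {x | ∀ u v : Fin (m + 1) → ℕ, (∀ l, ∑ i, u i * A i l = ∑ i, v i * A i l) →
    ∏ i, x i ^ u i = ∏ i, x i ^ v i}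

variable {m s : ℕ} {A : Fin (m + 1) → Fin s → ℕ} {D : ℕ}

theorem sum_eq (hD : 0 < D) (hA : ∀ i, ∑ l, A i l = D) {u v : Fin (m + 1) → ℕ}
    (h : ∀ l, ∑ i, u i * A i l = ∑ i, v i * A i l) : ∑ i, u i = ∑ i, v i := by
  have h1 : ∀ w : Fin (m + 1) → ℕ, ∑ l, ∑ i, w i * A i l = (∑ i, w i) * D := by
    intro w
    rw [Finset.sum_comm, Finset.sum_mul]
    refine Finset.sum_congr rfl fun i _ => ?_
    rw [← Finset.mul_sum, hA]
  have h2 : (∑ i, u i) * D = (∑ i, v i) * D := by
    rw [← h1, ← h1]
    exact Finset.sum_congr rfl fun l _ => h l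
  exact Nat.eq_of_mul_eq_mul_right hD h2

theorem toricCone_cone {k L : Type} [Field k] [Field L] [Algebra k L] (hD : 0 < D)
    (hA : ∀ i, ∑ l, A i l = D) : IsConeOver k (toricCone L A) := by
  constructor
  · refine ⟨Ideal.span {P | ∃ u v : Fin (m + 1) → ℕ,
      (∀ l, ∑ i, u i * A i l = ∑ i, v i * A i l) ∧
      P = ∏ i, (X i : MvPolynomial (Fin (m + 1)) k) ^ u i - ∏ i, X i ^ v i}, ?_⟩
    ext x
    rw [mem_zeroLocus_iff]
    constructor
    · intro hx P hP
      have h1 : Ideal.span {P | ∃ u v : Fin (m + 1) → ℕ,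
          (∀ l, ∑ i, u i * A i l = ∑ i, v i * A i l) ∧
          P = ∏ i, (X i : MvPolynomial (Fin (m + 1)) k) ^ u i - ∏ i, X i ^ v i} ≤
            RingHom.ker (aeval x : MvPolynomial (Fin (m + 1)) k →ₐ[k] L) := by
        refine Ideal.span_le.2 ?_
        rintro _ ⟨u, v, huv, rfl⟩
        change aeval x _ = 0
        rw [map_sub, map_prod, map_prod, sub_eq_zero]
        simp only [map_pow, aeval_X]
        exact hx u v huv
      exact h1 hP
    · intro hx u v huv
      have h1 := hx _ (Ideal.subset_span ⟨u, v, huv, rfl⟩)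
      rw [map_sub, map_prod, map_prod, sub_eq_zero] at h1
      simp only [map_pow, aeval_X] at h1
      exact h1
  · intro a y hy u v huv
    have h1 : ∀ w : Fin (m + 1) → ℕ, ∏ i, (a • y) i ^ w i = a ^ (∑ i, w i) * ∏ i, y i ^ w i := by
      intro w
      rw [← Finset.prod_pow_eq_pow_sum, ← Finset.prod_mul_distrib]
      refine Finset.prod_congr rfl fun i _ => ?_
      rw [Pi.smul_apply, smul_eq_mul, mul_pow]
    rw [h1, h1, sum_eq hD hA huv, hy u v huv]

/-- The monomial parametrisation. -/
noncomputable def par (F : Type) [Field F] {m s : ℕ} (A : Fin (m + 1) → Fin s → ℕ) :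
    MvPolynomial (Fin (m + 1)) F →ₐ[F] MvPolynomial (Fin s) F :=
  aeval fun i => ∏ l, X l ^ A i l

theorem par_ker_le (F : Type) [Field F] :
    zeroLocus F (RingHom.ker (par F A)) ⊆ toricCone F A := by
  intro x hx u v huv
  have h1 : ∀ w : Fin (m + 1) → ℕ,
      par F A (∏ i, X i ^ w i) = ∏ l, X l ^ (∑ i, w i * A i l) := by
    intro w
    rw [map_prod]
    simp only [map_pow, par, aeval_X]
    simp only [← Finset.prod_pow]
    rw [Finset.prod_comm]
    refine Finset.prod_congr rfl fun l _ => ?_
    rw [← Finset.prod_pow_eq_pow_sum]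
    refine Finset.prod_congr rfl fun i _ => ?_
    rw [← pow_mul, mul_comm]
  have h2 : (∏ i, (X i : MvPolynomial (Fin (m + 1)) F) ^ u i - ∏ i, X i ^ v i) ∈
      RingHom.ker (par F A) := by
    rw [RingHom.mem_ker, map_sub, h1, h1, sub_eq_zero]
    exact Finset.prod_congr rfl fun l _ => by rw [huv l]
  have h3 := (mem_zeroLocus_iff.1 hx) _ h2
  rw [map_sub, map_prod, map_prod, sub_eq_zero] at h3
  simp only [map_pow, aeval_X] at h3
  exact h3

theorem par_homogeneous (F : Type) [Field F] (hD : 0 < D) (hA : ∀ i, ∑ l, A i l = D)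
    (f : MvPolynomial (Fin (m + 1)) F) (hf : f ∈ RingHom.ker (par F A)) (n : ℕ) :
    homogeneousComponent n f ∈ RingHom.ker (par F A) := by
  classical
  rw [RingHom.mem_ker] at hf ⊢
  have hu : ∀ i, (∏ l, (X l : MvPolynomial (Fin s) F) ^ A i l).IsHomogeneous D := by
    intro i
    rw [← hA i]
    exact IsHomogeneous.prod _ _ _ fun l _ => isHomogeneous_X_pow _ _
  have h1 : ∀ k, (par F A (homogeneousComponent k f)).IsHomogeneous (D * k) := fun k =>
    (homogeneousComponent_isHomogeneous k f).aeval _ hu
  by_cases hn : n ∈ Finset.range (f.totalDegree + 1)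
  · have h2 : homogeneousComponent (D * n) (par F A f) = par F A (homogeneousComponent n f) := by
      conv_lhs => rw [← sum_homogeneousComponent f]
      rw [map_sum, map_sum, Finset.sum_eq_single n]
      · exact homogeneousComponent_eq_self (h1 n)
      · intro k _ hk
        rw [homogeneousComponent_of_mem (h1 k), if_neg]
        intro h
        exact hk (Nat.eq_of_mul_eq_mul_left hD h).symm
      · exact fun h => absurd hn h
    rw [← h2, hf, map_zero]
  · rw [homogeneousComponent_eq_zero, map_zero]
    rw [Finset.mem_range] at hn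
    omega

theorem algInd_monomials (F : Type) [Field F] {d : ℕ} (B : Fin (d + 1) → Fin s → ℕ)
    (hB : LinearIndependent ℚ fun j l => (B j l : ℚ)) :
    AlgebraicIndependent F fun j => ∏ l, (X l : MvPolynomial (Fin s) F) ^ B j l := by
  classical
  let E : (Fin (d + 1) →₀ ℕ) → (Fin s →₀ ℕ) := fun α =>
    Finsupp.equivFunOnFinite.symm fun l => ∑ j, α j * B j l
  have hE : Function.Injective E := by
    intro α β h
    have h1 : ∀ l, ∑ j, α j * B j l = ∑ j, β j * B j l := fun l =>
      DFunLike.congr_fun h l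
    rw [Fintype.linearIndependent_iff] at hB
    have h2 := hB (fun j => (α j : ℚ) - β j) (by
      funext l
      rw [Finset.sum_apply]
      simp only [Pi.smul_apply, smul_eq_mul, sub_mul, Finset.sum_sub_distrib, Pi.zero_apply]
      rw [sub_eq_zero]
      exact_mod_cast h1 l)
    ext j
    have h3 := h2 j
    rw [sub_eq_zero] at h3
    exact_mod_cast h3
  have key : ∀ (P : MvPolynomial (Fin (d + 1)) F) (α : Fin (d + 1) →₀ ℕ),
      coeff (E α) (aeval (fun j => ∏ l, (X l : MvPolynomial (Fin s) F) ^ B j l) P) =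
        coeff α P := by
    intro P α
    induction P using MvPolynomial.induction_on' with
    | monomial β c =>
      have h1 : aeval (fun j => ∏ l, (X l : MvPolynomial (Fin s) F) ^ B j l) (monomial β c) =
          monomial (E β) c := by
        rw [aeval_monomial, Finsupp.prod_fintype _ _ (by simp), monomial_eq,
          Finsupp.prod_fintype _ _ (by simp)]
        congr 1
        simp only [← Finset.prod_pow]
        rw [Finset.prod_comm]
        refine Finset.prod_congr rfl fun l _ => ?_
        change _ = X l ^ (∑ j, β j * B j l)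
        rw [← Finset.prod_pow_eq_pow_sum]
        refine Finset.prod_congr rfl fun j _ => ?_
        rw [← pow_mul, mul_comm]
      rw [h1, coeff_monomial, coeff_monomial]
      simp only [hE.eq_iff]
    | add P Q hP hQ => rw [map_add, coeff_add, coeff_add, hP, hQ]
  rw [algebraicIndependent_iff]
  intro P hP
  ext α
  rw [← key P α, hP, coeff_zero, coeff_zero]

theorem dimGE_toric (F : Type) [Field F] [IsAlgClosed F] (hD : 0 < D) (hA : ∀ i, ∑ l, A i l = D)
    {d : ℕ} (k : Fin (d + 1) → Fin (m + 1)) (hk : LinearIndependent ℚ fun j l => (A (k j) l : ℚ)) :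
    DimGE (toricCone F A) d := by
  have hprime : (RingHom.ker (par F A)).IsPrime := RingHom.ker_isPrime _
  have h1 : AlgebraicIndependent F fun j : Fin (d + 1) =>
      Ideal.Quotient.mk (RingHom.ker (par F A)) (X (k j)) := by
    have h2 := algInd_monomials F (fun j => A (k j)) hk
    have h3 : (fun j => ∏ l, (X l : MvPolynomial (Fin s) F) ^ A (k j) l) =
        (Ideal.kerLiftAlg (par F A)) ∘ fun j =>
          Ideal.Quotient.mk (RingHom.ker (par F A)) (X (k j)) := by
      funext j
      change _ = par F A (X (k j))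
      rw [par, aeval_X]
    rw [h3] at h2
    exact h2.of_comp _
  have h2 := dimGE_of_algInd (par_homogeneous F hD hA) _ h1
  intro q hq
  obtain ⟨y, hy, h3⟩ := h2 q hq
  exact ⟨y, par_ker_le F hy, h3⟩

end toric

section small

variable {p : ℕ} [hp : Fact p.Prime] {C F K E : Type} [Field C] [Field F] [CharP F p] [Field K]
  [Field E] [Algebra K C] [Algebra E F] {m s : ℕ} {A : Fin (m + 1) → Fin s → ℕ} {D : ℕ}

theorem small_of_toric [IsAlgClosed F] (T : TiltPair p C F) {κ0 : Type}
    (hD : 0 < D) (hA : ∀ i, ∑ l, A i l = D) {d : ℕ} (k : Fin (d + 1) → Fin (m + 1))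
    (hk : LinearIndependent ℚ fun j l => (A (k j) l : ℚ))
    (g0 : κ0 → MvPolynomial (Fin (m + 1)) K)
    (hZ : toricCone C A = {z | ∀ l, aeval z (g0 l) = 0}) : Small T E g0 d := by
  intro ε hε
  haveI : Infinite F := IsAlgClosed.instInfinite
  have hdim := dimGE_toric F hD hA k hk
  obtain ⟨r, G, hG, hYG⟩ := exists_gens (toricCone_cone (k := E) (L := F) hD hA)
    (dimGE_nonempty hdim)
  refine ⟨Fin r, inferInstance, G, hG, ?_, ?_⟩
  · rw [← hYG]
    exact hdim
  · intro t ht _ l
    have h1 : t ∈ toricCone F A := by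
      rw [hYG]
      exact ht
    have h2 : (fun i => T.sharp (t i)) ∈ toricCone C A := by
      intro u v huv
      have h3 := congrArg T.sharp (h1 u v huv)
      rw [map_prod, map_prod] at h3
      simpa only [map_pow] using h3
    rw [hZ] at h2
    rw [h2 l, map_zero]
    exact hε.le

end small

end Pool.Agent.R388.TP
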